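import Pool.Agent.H53.CircPair
import Pool.Agent.H53.CircCertA
import Pool.Agent.H53.CircCertB
import Pool.Agent.H53.CircCertC
import Pool.Agent.H53.CircCertD

/-!
# The independence number is at most `u + 1` for every odd `u ≥ 15`
-/

namespace Pool.Agent.H53.Circ

theorem div_mod_eq {u i a : ℕ} (ha : a < u) : (i * u + a) / u = i ∧ (i * u + a) % u = a := by
  constructor
  · rw [Nat.mul_comm, Nat.mul_add_div (by omega), Nat.div_eq_of_lt ha, Nat.add_zero]
  · rw [Nat.mul_comm, Nat.mul_add_mod, Nat.mod_eq_of_lt ha]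

/-- Removing two residue classes with at most one element each. -/
theorem contract {u c : ℕ} (hu : 17 ≤ u) (hc0 : 4 ≤ c) (hc : c + 6 ≤ u) {S : Finset ℕ}
    (hS : Ind u S) (h1 : (cls u S c).card ≤ 1) (h2 : (cls u S (c + 1)).card ≤ 1)
    (hbad : ∀ x ∈ S, ∀ y ∈ S, x % u < c → c + 1 < y % u →
      (y % u = x % u + 3 ∨ y % u = x % u + 6) → x / u ≠ (y / u + 2) % 5) :
    ∃ S', Ind (u - 2) S' ∧ S.card ≤ S'.card + 2 := by
  set T := S.filter (fun x => x % u ≠ c ∧ x % u ≠ c + 1) with hT
  have hTS : T ⊆ S := Finset.filter_subset _ _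
  have hpair : ∀ x ∈ T, ∀ y ∈ T, x < y →
      kap u c x < kap u c y ∧ ¬ EE (u - 2) (kap u c y - kap u c x) := by
    intro x hx y hy hxy
    obtain ⟨hxS, hxc, hxc1⟩ := Finset.mem_filter.1 hx
    obtain ⟨hyS, hyc, hyc1⟩ := Finset.mem_filter.1 hy
    obtain ⟨i, a, hi, ha, hxe, hxd, hxm⟩ := exists_ia (by omega) (hS.1 x hxS)
    obtain ⟨j, b, hj, hb, hye, hyd, hym⟩ := exists_ia (by omega) (hS.1 y hyS)
    unfold kap
    rw [hxd, hxm, hyd, hym]
    rw [hxm] at hxc hxc1
    rw [hym] at hyc hyc1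
    have hne := hS.2 x hxS y hyS hxy
    have hb1 := hbad x hxS y hyS
    have hb2 := hbad y hyS x hxS
    rw [hxd, hxm, hyd, hym] at hb1 hb2
    rw [hxe, hye] at hne hxy
    exact pair_ok hu hi hj ha hb hc0 hc hxc hxc1 hyc hyc1 hxy hne hb1 hb2
  refine ⟨T.image (kap u c), ⟨?_, ?_⟩, ?_⟩
  · intro z hz
    obtain ⟨x, hx, rfl⟩ := Finset.mem_image.1 hz
    obtain ⟨hxS, hxc, hxc1⟩ := Finset.mem_filter.1 hx
    obtain ⟨i, a, hi, ha, hxe, hxd, hxm⟩ := exists_ia (by omega) (hS.1 x hxS)
    unfold kap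
    rw [hxd, hxm]
    rw [hxm] at hxc hxc1
    have h3 : (if a < c then a else a - 2) < u - 2 := by split_ifs <;> omega
    have h4 : i * (u - 2) ≤ 4 * (u - 2) := Nat.mul_le_mul_right _ hi
    omega
  · intro z hz z' hz' hzz
    obtain ⟨x, hx, rfl⟩ := Finset.mem_image.1 hz
    obtain ⟨y, hy, rfl⟩ := Finset.mem_image.1 hz'
    rcases lt_trichotomy x y with h | h | h
    · exact (hpair x hx y hy h).2
    · subst h; exact absurd hzz (lt_irrefl _)
    · exact absurd (hpair y hy x hx h).1 (by omega)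
  · rw [Finset.card_image_of_injOn]
    · have h3 : S ⊆ T ∪ (cls u S c ∪ cls u S (c + 1)) := by
        intro x hx
        simp only [hT, cls, Finset.mem_union, Finset.mem_filter]
        by_cases h4 : x % u = c
        · right; left; exact ⟨hx, h4⟩
        · by_cases h5 : x % u = c + 1
          · right; right; exact ⟨hx, h5⟩
          · left; exact ⟨hx, h4, h5⟩
      have h4 := Finset.card_le_card h3
      have h5 := Finset.card_union_le T (cls u S c ∪ cls u S (c + 1))
      have h6 := Finset.card_union_le (cls u S c) (cls u S (c + 1))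
      omega
    · intro x hx y hy hxy
      rcases lt_trichotomy x y with h | h | h
      · exact absurd (hpair x hx y hy h).1 (by rw [hxy]; exact lt_irrefl _)
      · exact h
      · exact absurd (hpair y hy x hx h).1 (by rw [hxy]; exact lt_irrefl _)

/-- Translation. -/
theorem shift_ind {u : ℕ} (hu : 15 ≤ u) {S : Finset ℕ} (hS : Ind u S) {s : ℕ} (hs : s ≤ 5 * u) :
    Ind u (S.image (fun x => (x + s) % (5 * u))) ∧
      (S.image (fun x => (x + s) % (5 * u))).card = S.card := by
  have hval : ∀ x ∈ S, (x + s < 5 * u ∧ (x + s) % (5 * u) = x + s) ∨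
      (5 * u ≤ x + s ∧ (x + s) % (5 * u) = x + s - 5 * u) := by
    intro x hx
    have hx' := hS.1 x hx
    rcases Nat.lt_or_ge (x + s) (5 * u) with h | h
    · left; exact ⟨h, Nat.mod_eq_of_lt h⟩
    · right
      refine ⟨h, ?_⟩
      rw [Nat.mod_eq_sub_mod h, Nat.mod_eq_of_lt (by omega)]
  refine ⟨⟨?_, ?_⟩, ?_⟩
  · intro z hz
    obtain ⟨x, hx, rfl⟩ := Finset.mem_image.1 hz
    exact Nat.mod_lt _ (by omega)
  · intro z hz z' hz' hzz
    obtain ⟨x, hx, rfl⟩ := Finset.mem_image.1 hz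
    obtain ⟨y, hy, rfl⟩ := Finset.mem_image.1 hz'
    have hx' := hS.1 x hx
    have hy' := hS.1 y hy
    rcases lt_trichotomy x y with h | h | h
    · have hne := hS.2 x hx y hy h
      rcases hval x hx with ⟨h1, h2⟩ | ⟨h1, h2⟩ <;> rcases hval y hy with ⟨h3, h4⟩ | ⟨h3, h4⟩ <;>
        rw [h2, h4] at hzz ⊢
      · rw [show y + s - (x + s) = y - x by omega]; exact hne
      · rw [← EE_symm hu (by omega), show 5 * u - (y + s - 5 * u - (x + s)) = 10 * u - (y - x) by
          omega]
        omega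
      · omega
      · rw [show y + s - 5 * u - (x + s - 5 * u) = y - x by omega]; exact hne
    · subst h; exact absurd hzz (lt_irrefl _)
    · have hne := hS.2 y hy x hx h
      rcases hval x hx with ⟨h1, h2⟩ | ⟨h1, h2⟩ <;> rcases hval y hy with ⟨h3, h4⟩ | ⟨h3, h4⟩ <;>
        rw [h2, h4] at hzz ⊢
      · omega
      · omega
      · rw [← EE_symm hu (by omega), show 5 * u - (y + s - (x + s - 5 * u)) = x - y by omega]
        exact hne
      · omega
  · apply Finset.card_image_of_injOn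
    intro x hx y hy hxy
    dsimp only at hxy
    have hx' := hS.1 x hx
    have hy' := hS.1 y hy
    rcases hval x hx with ⟨h1, h2⟩ | ⟨h1, h2⟩ <;> rcases hval y hy with ⟨h3, h4⟩ | ⟨h3, h4⟩ <;>
      rw [h2, h4] at hxy <;> omega

/-- The index of an element in a middle class, if `0, 2 * u ∈ S`. -/
theorem index_mid {u : ℕ} (hu : 15 ≤ u) {S : Finset ℕ} (hS : Ind u S) (h0 : 0 ∈ S)
    (h2 : 2 * u ∈ S) {x : ℕ} (hx : x ∈ S) (hx1 : 5 ≤ x % u) (hx2 : x % u ≤ u - 5) :
    x / u = 0 ∨ x / u = 1 ∨ x / u = 3 := by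
  obtain ⟨i, a, hi, ha, hxe, hxd, hxm⟩ := exists_ia (by omega) (hS.1 x hx)
  rw [hxm] at hx1 hx2
  rw [hxd]
  have hi' : i = 0 ∨ i = 1 ∨ i = 2 ∨ i = 3 ∨ i = 4 := by omega
  rcases hi' with h | h | h | h | h
  · left; exact h
  · right; left; exact h
  · exfalso
    subst h
    have := hS.2 0 h0 x hx (by omega)
    unfold EE at this
    omega
  · right; right; exact h
  · exfalso
    subst h
    have := hS.2 (2 * u) h2 x hx (by omega)
    unfold EE at this
    omega

/-- Two elements of one class with indices in `{0, 1}` or with the same index coincide. -/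
theorem cls_le_one {u : ℕ} {S : Finset ℕ} (hu : 15 ≤ u) (hS : Ind u S) {a : ℕ}
    (h : (∀ x ∈ S, x % u = a → x / u = 0 ∨ x / u = 1) ∨ (∀ x ∈ S, x % u = a → x / u = 3)) :
    (cls u S a).card ≤ 1 := by
  rw [Finset.card_le_one]
  have key : ∀ x ∈ cls u S a, ∀ y ∈ cls u S a, ¬ x < y := by
    intro x hx y hy hxy
    obtain ⟨hxS, hxa⟩ := Finset.mem_filter.1 hx
    obtain ⟨hyS, hya⟩ := Finset.mem_filter.1 hy
    have hne := hS.2 x hxS y hyS hxy
    obtain ⟨i, a1, hi, ha, hxe, hxd, hxm⟩ := exists_ia (by omega) (hS.1 x hxS)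
    obtain ⟨j, b, hj, hb, hye, hyd, hym⟩ := exists_ia (by omega) (hS.1 y hyS)
    rcases h with h | h
    · have h3 := h x hxS hxa
      have h4 := h y hyS hya
      rw [hxd] at h3
      rw [hyd] at h4
      unfold EE at hne
      rcases h3 with rfl | rfl <;> rcases h4 with rfl | rfl <;> omega
    · have h3 := h x hxS hxa
      have h4 := h y hyS hya
      rw [hxd] at h3
      rw [hyd] at h4
      subst h3; subst h4
      omega
  intro x hx y hy
  rcases lt_trichotomy x y with h | h | h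
  · exact absurd h (key x hx y hy)
  · exact h
  · exact absurd h (key y hy x hx)

/-- For `u ≥ 49` two classes can be removed. -/
theorem exists_contract {u : ℕ} (hu : 49 ≤ u) {S : Finset ℕ} (hS : Ind u S) (h0 : 0 ∈ S)
    (h2 : 2 * u ∈ S) : ∃ S', Ind (u - 2) S' ∧ S.card ≤ S'.card + 2 := by
  -- a window without index 3
  have hA : ∀ c, 9 ≤ c → c + 10 ≤ u → (∀ x ∈ S, c - 4 ≤ x % u → x % u ≤ c + 5 → x / u ≠ 3) →
      ∃ S', Ind (u - 2) S' ∧ S.card ≤ S'.card + 2 := by
    intro c hc1 hc2 hw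
    have hw' : ∀ x ∈ S, c - 4 ≤ x % u → x % u ≤ c + 5 → x / u = 0 ∨ x / u = 1 := by
      intro x hx h3 h4
      have h5 := index_mid (by omega) hS h0 h2 hx (by omega) (by omega)
      have h6 := hw x hx h3 h4
      omega
    refine contract (c := c) (by omega) (by omega) (by omega) hS ?_ ?_ ?_
    · exact cls_le_one (by omega) hS (Or.inl fun x hx hxc => hw' x hx (by omega) (by omega))
    · exact cls_le_one (by omega) hS (Or.inl fun x hx hxc => hw' x hx (by omega) (by omega))
    · intro x hx y hy h3 h4 h5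
      have h6 := hw' x hx (by omega) (by omega)
      have h7 := hw' y hy (by omega) (by omega)
      omega
  by_cases hlow : ∀ x ∈ S, 5 ≤ x % u → x % u ≤ 14 → x / u ≠ 3
  · exact hA 9 le_rfl (by omega) (fun x hx h3 h4 => hlow x hx (by omega) (by omega))
  by_cases hhigh : ∀ x ∈ S, u - 14 ≤ x % u → x % u ≤ u - 5 → x / u ≠ 3
  · exact hA (u - 10) (by omega) (by omega)
      (fun x hx h3 h4 => hhigh x hx (by omega) (by omega))
  push Not at hlow hhigh
  obtain ⟨p, hp, hp1, hp2, hp3⟩ := hlow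
  obtain ⟨q, hq, hq1, hq2, hq3⟩ := hhigh
  obtain ⟨i, p', hi, hp', hpe, hpd, hpm⟩ := exists_ia (by omega) (hS.1 p hp)
  obtain ⟨j, q', hj, hq', hqe, hqd, hqm⟩ := exists_ia (by omega) (hS.1 q hq)
  rw [hpd] at hp3
  rw [hqd] at hq3
  rw [hpm] at hp1 hp2
  rw [hqm] at hq1 hq2
  subst hp3; subst hq3
  have hw : ∀ x ∈ S, 19 ≤ x % u → x % u ≤ 28 → x / u = 3 := by
    intro x hx h3 h4
    have h5 := index_mid (by omega) hS h0 h2 hx (by omega) (by omega)
    obtain ⟨l, a, hl, ha, hxe, hxd, hxm⟩ := exists_ia (by omega) (hS.1 x hx)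
    rw [hxd] at h5 ⊢
    rw [hxm] at h3 h4
    rcases h5 with h5 | h5 | h5
    · exfalso
      subst h5
      have := hS.2 x hx p hp (by omega)
      unfold EE at this
      omega
    · exfalso
      subst h5
      have := hS.2 x hx q hq (by omega)
      unfold EE at this
      omega
    · exact h5
  refine contract (c := 23) (by omega) (by omega) (by omega) hS ?_ ?_ ?_
  · exact cls_le_one (by omega) hS (Or.inr fun x hx hxc => hw x hx (by omega) (by omega))
  · exact cls_le_one (by omega) hS (Or.inr fun x hx hxc => hw x hx (by omega) (by omega))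
  · intro x hx y hy h3 h4 h5
    have h6 := hw x hx (by omega) (by omega)
    have h7 := hw y hy (by omega) (by omega)
    omega

theorem base {u : ℕ} (hu : 15 ≤ u) (hodd : u % 2 = 1) (hu2 : u ≤ 47) {S : Finset ℕ}
    (hS : Ind u S) (h0 : 0 ∈ S) (h2 : 2 * u ∈ S) : S.card ≤ u + 1 := by
  have h3 : u = 15 ∨ u = 17 ∨ u = 19 ∨ u = 21 ∨ u = 23 ∨ u = 25 ∨ u = 27 ∨ u = 29 ∨ u = 31 ∨
      u = 33 ∨ u = 35 ∨ u = 37 ∨ u = 39 ∨ u = 41 ∨ u = 43 ∨ u = 45 ∨ u = 47 := by omega
  rcases h3 with h | h | h | h | h | h | h | h | h | h | h | h | h | h | h | h | h <;> subst h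
  · exact check_sound hu chk15 hS h0 h2
  · exact check_sound hu chk17 hS h0 h2
  · exact check_sound hu chk19 hS h0 h2
  · exact check_sound hu chk21 hS h0 h2
  · exact check_sound hu chk23 hS h0 h2
  · exact check_sound hu chk25 hS h0 h2
  · exact check_sound hu chk27 hS h0 h2
  · exact check_sound hu chk29 hS h0 h2
  · exact check_sound hu chk31 hS h0 h2
  · exact check_sound hu chk33 hS h0 h2
  · exact check_sound hu chk35 hS h0 h2
  · exact check_sound hu chk37 hS h0 h2
  · exact check_sound hu chk39 hS h0 h2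
  · exact check_sound hu chk41 hS h0 h2
  · exact check_sound hu chk43 hS h0 h2
  · exact check_sound hu chk45 hS h0 h2
  · exact check_sound hu chk47 hS h0 h2

/-- The independence number is at most `u + 1`. -/
theorem alpha_le : ∀ u : ℕ, 15 ≤ u → u % 2 = 1 → ∀ S : Finset ℕ, Ind u S → S.card ≤ u + 1 := by
  intro u
  induction u using Nat.strong_induction_on with
  | _ u ih =>
  intro hu hodd S hS
  by_contra hcon
  push Not at hcon
  -- two elements in one class
  obtain ⟨x, hx, y, hy, hxy, hmod⟩ := Finset.exists_ne_map_eq_of_card_lt_of_maps_to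
    (s := S) (t := Finset.range u) (f := fun x => x % u)
    (by rw [Finset.card_range]; omega)
    (fun x _ => Finset.mem_coe.2 (Finset.mem_range.2 (Nat.mod_lt x (by omega))))
  -- the reduction to `0, 2 * u ∈ S`
  have main : ∀ S : Finset ℕ, Ind u S → 0 ∈ S → 2 * u ∈ S → S.card ≤ u + 1 := by
    intro S hS h0 h2
    by_cases hu2 : u ≤ 47
    · exact base hu hodd hu2 hS h0 h2
    · obtain ⟨S', hS', hc⟩ := exists_contract (by omega) hS h0 h2
      have := ih (u - 2) (by omega) (by omega) (by omega) S' hS'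
      omega
  have key : ∀ x ∈ S, ∀ y ∈ S, x < y → x % u = y % u → S.card ≤ u + 1 := by
    intro x hx y hy hxy hmod
    have hne := hS.2 x hx y hy hxy
    obtain ⟨i, a, hi, ha, hxe, hxd, hxm⟩ := exists_ia (by omega) (hS.1 x hx)
    obtain ⟨j, b, hj, hb, hye, hyd, hym⟩ := exists_ia (by omega) (hS.1 y hy)
    have hab : a = b := by omega
    subst hab
    have hd : y = x + 2 * u ∨ y = x + 3 * u := by
      have hi' : i = 0 ∨ i = 1 ∨ i = 2 ∨ i = 3 ∨ i = 4 := by omega
      have hj' : j = 0 ∨ j = 1 ∨ j = 2 ∨ j = 3 ∨ j = 4 := by omega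
      unfold EE at hne
      rcases hi' with rfl | rfl | rfl | rfl | rfl <;>
      rcases hj' with rfl | rfl | rfl | rfl | rfl <;> omega
    have hx5 := hS.1 x hx
    have hy5 := hS.1 y hy
    rcases hd with hd | hd
    · obtain ⟨h1, h2⟩ := shift_ind hu hS (s := 5 * u - x) (by omega)
      rw [← h2]
      refine main _ h1 ?_ ?_
      · refine Finset.mem_image.2 ⟨x, hx, ?_⟩
        rw [show x + (5 * u - x) = 5 * u by omega, Nat.mod_self]
      · refine Finset.mem_image.2 ⟨y, hy, ?_⟩
        rw [show y + (5 * u - x) = 2 * u + 5 * u by omega, Nat.add_mod_right,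
          Nat.mod_eq_of_lt (by omega)]
    · obtain ⟨h1, h2⟩ := shift_ind hu hS (s := 5 * u - y) (by omega)
      rw [← h2]
      refine main _ h1 ?_ ?_
      · refine Finset.mem_image.2 ⟨y, hy, ?_⟩
        rw [show y + (5 * u - y) = 5 * u by omega, Nat.mod_self]
      · refine Finset.mem_image.2 ⟨x, hx, ?_⟩
        rw [show x + (5 * u - y) = 2 * u by omega, Nat.mod_eq_of_lt (by omega)]
  rcases lt_trichotomy x y with h | h | h
  · have := key x hx y hy h hmod; omega
  · exact hxy h
  · have := key y hy x hx h hmod.symm; omega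

end Pool.Agent.H53.Circ
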