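import Mathlib

/-!
# Independence number of a family of circulant graphs: certificate checker
-/

namespace Pool.Agent.H53.Circ

/-- The (symmetric) set of differences of the circulant graph on `5 * u` vertices. -/
def EE (u d : ℕ) : Prop :=
  d = u ∨ d = 4 * u ∨ d + 4 = 2 * u ∨ d + 2 = 2 * u ∨ d + 1 = 2 * u ∨ d = 2 * u + 3 ∨
    d = 2 * u + 5 ∨ (2 * u + 6 ≤ d ∧ d + 6 ≤ 3 * u) ∨ d + 5 = 3 * u ∨ d + 3 = 3 * u ∨
    d = 3 * u + 1 ∨ d = 3 * u + 2 ∨ d = 3 * u + 4

instance (u d : ℕ) : Decidable (EE u d) := by unfold EE; infer_instance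

/-- Independent sets of vertices `0, ..., 5 * u - 1`. -/
def Ind (u : ℕ) (S : Finset ℕ) : Prop :=
  (∀ x ∈ S, x < 5 * u) ∧ ∀ x ∈ S, ∀ y ∈ S, x < y → ¬ EE u (y - x)

/-- The mask of the neighbours of `0`. -/
def mkN (u : ℕ) : ℕ → ℕ
  | 0 => 0
  | d + 1 => if EE u d then mkN u d ||| (1 <<< d) else mkN u d

/-- Rotation of the mask `N` by `v`. -/
def rot (u N v : ℕ) : ℕ := (N <<< v) ||| (N >>> (5 * u - v))

/-- `a` minus `m`. -/
def msub (a m : ℕ) : ℕ := a ^^^ (a &&& m)

/-- Number of ones among the lowest `n` bits. -/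
def pc : ℕ → ℕ → ℕ
  | 0, _ => 0
  | n + 1, x => x % 2 + pc n (x / 2)

/-- Residue classes that contain an allowed vertex. -/
def anyM (u al : ℕ) : ℕ :=
  al ||| (al >>> u) ||| (al >>> (2 * u)) ||| (al >>> (3 * u)) ||| (al >>> (4 * u))

/-- Residue classes that contain two allowed vertices that are not adjacent. -/
def twoM (u al : ℕ) : ℕ :=
  let c := al &&& (al >>> (2 * u))
  c ||| (c >>> u) ||| (c >>> (2 * u)) ||| (al &&& (al >>> (3 * u))) |||
    ((al >>> u) &&& (al >>> (4 * u)))

def leafOK (u al cap : ℕ) : Bool :=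
  Nat.ble (pc u (anyM u al) + pc u (msub (twoM u al) cap)) (u + 1)

/-- The checker: fuel, stream of codes, allowed vertices, capped classes. -/
def run (u N : ℕ) : ℕ → ℕ → ℕ → ℕ → Option ℕ
  | 0, _, _, _ => none
  | f + 1, s, al, cap =>
    let c := s % 512
    let s' := s / 512
    if c = 0 then (if leafOK u al cap then some s' else none)
    else if c < 256 then
      (run u N f s' (msub al (rot u N (c - 1))) cap).bind fun s2 =>
        run u N f s2 (msub al (1 <<< (c - 1))) cap
    else
      let a := c - 256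
      let br := fun (i j s1 : ℕ) =>
        if al.testBit (i * u + a) && al.testBit (j * u + a) then
          run u N f s1 (msub (msub al (rot u N (i * u + a))) (rot u N (j * u + a))) cap
        else some s1
      (br 0 2 s').bind fun s1 => (br 1 3 s1).bind fun s2 => (br 2 4 s2).bind fun s3 =>
        (br 3 0 s3).bind fun s4 => (br 4 1 s4).bind fun s5 => run u N f s5 al (cap ||| (1 <<< a))

/-- Check for one `u`. -/
def check (u f s : ℕ) : Bool :=
  let N := mkN u (5 * u)
  (run u N f s (msub (msub (2 ^ (5 * u) - 1) (rot u N 0)) (rot u N (2 * u))) 0).isSome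

end Pool.Agent.H53.Circ
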