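import Pool.Agent.H53.CircSound

/-!
# Triangles, diameter two, and sets with exactly one edge (in terms of differences)
-/

namespace Pool.Agent.H53.Circ

/-- No triangles. -/
theorem no_tri {u d1 d2 : ℕ} (hu : 15 ≤ u) (h1 : EE u d1) (h2 : EE u d2) : ¬ EE u (d1 + d2) := by
  intro h3
  unfold EE at h1 h2
  rcases h1 with h | h | h | h | h | h | h | h | h | h | h | h | h <;>
  rcases h2 with h' | h' | h' | h' | h' | h' | h' | h' | h' | h' | h' | h' | h' <;>
  (unfold EE at h3; omega)

/-- Diameter two, for small differences. -/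
theorem diam_small {u d : ℕ} (hu : 15 ≤ u) (hd0 : 0 < d) (hd : 2 * d < 5 * u) (h : ¬ EE u d) :
    ∃ e, e < 5 * u ∧ EE u e ∧ ((e < d ∧ EE u (d - e)) ∨ (d < e ∧ EE u (e - d))) := by
  unfold EE at h
  by_cases c1 : d = 1
  · exact ⟨3 * u + 2, by omega, by unfold EE; omega, Or.inr ⟨by omega, by unfold EE; omega⟩⟩
  by_cases c2 : d = 2 ∨ d = 3
  · exact ⟨3 * u + 4, by omega, by unfold EE; omega, Or.inr ⟨by omega, by unfold EE; omega⟩⟩
  by_cases c3 : d = 5
  · exact ⟨3 * u + 2, by omega, by unfold EE; omega, Or.inr ⟨by omega, by unfold EE; omega⟩⟩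
  by_cases c4 : d + 5 ≤ u
  · exact ⟨3 * u + 1, by omega, by unfold EE; omega, Or.inr ⟨by omega, by unfold EE; omega⟩⟩
  by_cases c5 : d + 4 = u ∨ d = u + 4
  · exact ⟨3 * u + 2, by omega, by unfold EE; omega, Or.inr ⟨by omega, by unfold EE; omega⟩⟩
  by_cases c6 : d + 3 = u ∨ d + 2 = u ∨ d = u + 1
  · exact ⟨3 * u + 4, by omega, by unfold EE; omega, Or.inr ⟨by omega, by unfold EE; omega⟩⟩
  by_cases c7 : d = u + 2
  · exact ⟨3 * u + 1, by omega, by unfold EE; omega, Or.inr ⟨by omega, by unfold EE; omega⟩⟩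
  by_cases c8 : d = 2 * u
  · exact ⟨u, by omega, by unfold EE; omega, Or.inl ⟨by omega, by unfold EE; omega⟩⟩
  · exact ⟨4 * u, by omega, by unfold EE; omega, Or.inr ⟨by omega, by unfold EE; omega⟩⟩

theorem diam {u d : ℕ} (hu : 15 ≤ u) (hodd : u % 2 = 1) (hd0 : 0 < d) (hd : d < 5 * u)
    (h : ¬ EE u d) :
    ∃ e, e < 5 * u ∧ EE u e ∧ ((e < d ∧ EE u (d - e)) ∨ (d < e ∧ EE u (e - d))) := by
  by_cases hs : 2 * d < 5 * u
  · exact diam_small hu hd0 hs h
  · obtain ⟨e, he, he1, he2⟩ := diam_small (u := u) (d := 5 * u - d) hu (by omega) (by omega)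
      (by rwa [EE_symm hu hd.le])
    have he0 : 0 < e := by
      rcases Nat.eq_zero_or_pos e with h0 | h0
      · subst h0; unfold EE at he1; omega
      · exact h0
    refine ⟨5 * u - e, by omega, by rwa [EE_symm hu he.le], ?_⟩
    rcases he2 with ⟨h1, h2⟩ | ⟨h1, h2⟩
    · right
      exact ⟨by omega, by rw [show 5 * u - e - d = 5 * u - d - e by omega]; exact h2⟩
    · left
      exact ⟨by omega, by rw [show d - (5 * u - e) = e - (5 * u - d) by omega]; exact h2⟩

/-- A set of `u + 2` vertices whose only edge is `{0, e}`. -/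
def OneEdge (u e : ℕ) (S : Finset ℕ) : Prop :=
  (∀ x ∈ S, x < 5 * u) ∧ 0 ∈ S ∧ e ∈ S ∧ S.card = u + 2 ∧
    ∀ x ∈ S, ∀ y ∈ S, x < y → EE u (y - x) → x = 0 ∧ y = e

theorem oneEdge_u {u : ℕ} (hu : 15 ≤ u) : ∃ S, OneEdge u u S := by
  refine ⟨(Finset.range (u + 1)).erase (u - 5) ∪ {2 * u - 5, 5 * u - 5}, ?_, ?_, ?_, ?_, ?_⟩
  · intro x hx
    simp only [Finset.mem_union, Finset.mem_erase, Finset.mem_range, Finset.mem_insert,
      Finset.mem_singleton] at hx
    omega
  · simp only [Finset.mem_union, Finset.mem_erase, Finset.mem_range, Finset.mem_insert,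
      Finset.mem_singleton]
    omega
  · simp only [Finset.mem_union, Finset.mem_erase, Finset.mem_range, Finset.mem_insert,
      Finset.mem_singleton]
    omega
  · rw [Finset.card_union_of_disjoint, Finset.card_erase_of_mem, Finset.card_range,
      Finset.card_pair]
    · omega
    · omega
    · rw [Finset.mem_range]; omega
    · rw [Finset.disjoint_left]
      intro x hx hx'
      simp only [Finset.mem_erase, Finset.mem_range, Finset.mem_insert,
        Finset.mem_singleton] at hx hx'
      omega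
  · intro x hx y hy hxy hE
    simp only [Finset.mem_union, Finset.mem_erase, Finset.mem_range, Finset.mem_insert,
      Finset.mem_singleton] at hx hy
    unfold EE at hE
    rcases hx with hx | hx | hx <;> rcases hy with hy | hy | hy <;> omega

theorem oneEdge_minus {u j : ℕ} (hu : 15 ≤ u) (hj : j = 1 ∨ j = 2 ∨ j = 4) :
    ∃ S, OneEdge u (2 * u - j) S := by
  refine ⟨({0, 5 * u - j} ∪ {2 * u - j, 2 * u}) ∪
    (Finset.Icc (u + 1) (u + 4) ∪ (Finset.Icc 5 (u - 1)).erase (u - j)), ?_, ?_, ?_, ?_, ?_⟩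
  · intro x hx
    simp only [Finset.mem_union, Finset.mem_erase, Finset.mem_Icc, Finset.mem_insert,
      Finset.mem_singleton] at hx
    omega
  · simp
  · simp
  · rw [Finset.card_union_of_disjoint, Finset.card_union_of_disjoint,
      Finset.card_union_of_disjoint, Finset.card_pair, Finset.card_pair, Finset.card_erase_of_mem,
      Nat.card_Icc, Nat.card_Icc]
    · omega
    · rw [Finset.mem_Icc]; omega
    · omega
    · omega
    · rw [Finset.disjoint_left]
      intro x hx hx'
      simp only [Finset.mem_erase, Finset.mem_Icc] at hx hx'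
      omega
    · rw [Finset.disjoint_left]
      intro x hx hx'
      simp only [Finset.mem_insert, Finset.mem_singleton] at hx hx'
      omega
    · rw [Finset.disjoint_left]
      intro x hx hx'
      simp only [Finset.mem_union, Finset.mem_erase, Finset.mem_Icc, Finset.mem_insert,
        Finset.mem_singleton] at hx hx'
      omega
  · intro x hx y hy hxy hE
    simp only [Finset.mem_union, Finset.mem_erase, Finset.mem_Icc, Finset.mem_insert,
      Finset.mem_singleton] at hx hy
    unfold EE at hE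
    rcases hx with (hx | hx) | hx <;> rcases hy with (hy | hy) | hy <;> omega

theorem oneEdge_plus {u c : ℕ} (hu : 15 ≤ u) (hc : c = 3 ∨ c = 5 ∨ 6 ≤ c) (hc2 : 2 * c < u)
    (hc3 : c + 9 ≤ u) : ∃ S, OneEdge u (2 * u + c) S := by
  refine ⟨(({0, 2 * u + c} ∪ {2 * u, c}) ∪ {c + 3, u + c + 1}) ∪ {u + c + 2, u + c + 4} ∪
    (Finset.Icc (c + 5) (u - 1) ∪ Finset.Icc (u + 1) (u + c - 1)), ?_, ?_, ?_, ?_, ?_⟩
  · intro x hx
    simp only [Finset.mem_union, Finset.mem_Icc, Finset.mem_insert, Finset.mem_singleton] at hx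
    omega
  · simp
  · simp
  · rw [Finset.card_union_of_disjoint, Finset.card_union_of_disjoint,
      Finset.card_union_of_disjoint, Finset.card_union_of_disjoint, Finset.card_union_of_disjoint,
      Finset.card_pair, Finset.card_pair, Finset.card_pair, Finset.card_pair,
      Nat.card_Icc, Nat.card_Icc]
    · omega
    · omega
    · omega
    · omega
    · omega
    all_goals
      rw [Finset.disjoint_left]
      intro x hx hx'
      simp only [Finset.mem_union, Finset.mem_Icc, Finset.mem_insert,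
        Finset.mem_singleton] at hx hx'
      omega
  · intro x hx y hy hxy hE
    simp only [Finset.mem_union, Finset.mem_Icc, Finset.mem_insert, Finset.mem_singleton] at hx hy
    unfold EE at hE
    rcases hx with (((hx | hx) | hx) | hx) | hx <;> rcases hy with (((hy | hy) | hy) | hy) | hy <;>
      omega

end Pool.Agent.H53.Circ
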