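import Pool.Agent.H53.CircSound

/-!
# Removing two residue classes
-/

namespace Pool.Agent.H53.Circ

/-- Removing the residue classes `c`, `c + 1`. -/
def kap (u c x : ℕ) : ℕ := (x / u) * (u - 2) + (if x % u < c then x % u else x % u - 2)

theorem exists_ia {u x : ℕ} (hu : 0 < u) (hx : x < 5 * u) :
    ∃ i a, i ≤ 4 ∧ a < u ∧ x = i * u + a ∧ x / u = i ∧ x % u = a := by
  refine ⟨x / u, x % u, ?_, Nat.mod_lt x hu, ?_, rfl, rfl⟩
  · have : x / u < 5 := by rw [Nat.div_lt_iff_lt_mul hu]; exact hx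
    omega
  · rw [Nat.mul_comm]; exact (Nat.div_add_mod x u).symm

/-- The effect of the removal on two vertices. -/
theorem pair_ok {u c i a j b : ℕ} (hu : 17 ≤ u) (hi : i ≤ 4) (hj : j ≤ 4)
    (ha : a < u) (hb : b < u) (hc0 : 4 ≤ c) (hc : c + 6 ≤ u)
    (hac : a ≠ c) (hac1 : a ≠ c + 1) (hbc : b ≠ c) (hbc1 : b ≠ c + 1)
    (hlt : i * u + a < j * u + b) (hne : ¬ EE u (j * u + b - (i * u + a)))
    (hbad1 : a < c → c + 1 < b → (b = a + 3 ∨ b = a + 6) → i ≠ (j + 2) % 5)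
    (hbad2 : b < c → c + 1 < a → (a = b + 3 ∨ a = b + 6) → j ≠ (i + 2) % 5) :
    i * (u - 2) + (if a < c then a else a - 2) < j * (u - 2) + (if b < c then b else b - 2) ∧
    ¬ EE (u - 2) (j * (u - 2) + (if b < c then b else b - 2) -
      (i * (u - 2) + (if a < c then a else a - 2))) := by
  obtain ⟨w, rfl⟩ : ∃ w, u = w + 2 := ⟨u - 2, by omega⟩
  simp only [Nat.add_sub_cancel]
  unfold EE at hne ⊢
  have hi' : i = 0 ∨ i = 1 ∨ i = 2 ∨ i = 3 ∨ i = 4 := by omega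
  have hj' : j = 0 ∨ j = 1 ∨ j = 2 ∨ j = 3 ∨ j = 4 := by omega
  rcases hi' with rfl | rfl | rfl | rfl | rfl <;>
  rcases hj' with rfl | rfl | rfl | rfl | rfl <;>
  split_ifs <;>
  first
  | (exfalso; omega)
  | (refine ⟨by omega, ?_⟩
     rintro (h | h | h | h | h | h | h | h | h | h | h | h | h) <;> omega)

end Pool.Agent.H53.Circ
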