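import Pool.Agent.H53.CircCheck

/-!
# Soundness of the certificate checker
-/

namespace Pool.Agent.H53.Circ

theorem EE_symm {u d : ℕ} (hu : 15 ≤ u) (hd : d ≤ 5 * u) : EE u (5 * u - d) ↔ EE u d := by
  unfold EE
  omega

theorem mkN_testBit (u n d : ℕ) : (mkN u n).testBit d = decide (d < n ∧ EE u d) := by
  induction n with
  | zero => simp [mkN]
  | succ n ih =>
    unfold mkN
    split_ifs with h
    · rw [Nat.testBit_lor, ih, Nat.one_shiftLeft, Nat.testBit_two_pow]
      by_cases hd : n = d
      · subst hd; simp [h]
      · have : (d < n + 1) ↔ d < n := by omega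
        simp [hd, this]
    · rw [ih]
      by_cases hd : n = d
      · subst hd; simp [h]
      · have : (d < n + 1) ↔ d < n := by omega
        simp [this]

theorem msub_testBit (a m i : ℕ) : (msub a m).testBit i = (a.testBit i && !m.testBit i) := by
  unfold msub
  rw [Nat.testBit_xor, Nat.testBit_land]
  cases a.testBit i <;> cases m.testBit i <;> rfl

theorem rot_testBit {u v w : ℕ} (hv : v < 5 * u) (hw : w < 5 * u) :
    (rot u (mkN u (5 * u)) v).testBit w = true ↔
      (v ≤ w ∧ EE u (w - v)) ∨ (w < v ∧ EE u (5 * u - (v - w))) := by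
  unfold rot
  rw [Nat.testBit_lor, Nat.testBit_shiftLeft, Nat.testBit_shiftRight, mkN_testBit, mkN_testBit]
  have e : 5 * u - v + w = 5 * u - (v - w) ∨ v ≤ w := by omega
  by_cases h : v ≤ w
  · have h1 : ¬ (5 * u - v + w < 5 * u) := by omega
    have h2 : w - v < 5 * u := by omega
    have h3 : ¬ w < v := by omega
    simp [h, h1, h2, h3]
  · have h1 : 5 * u - v + w < 5 * u := by omega
    have h3 : w < v := by omega
    have h4 : 5 * u - v + w = 5 * u - (v - w) := by omega
    rw [h4] at h1 ⊢
    simp [h, h1, h3]

theorem not_rot {u v w : ℕ} (hu : 15 ≤ u) {S : Finset ℕ} (hS : Ind u S) (hv : v ∈ S)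
    (hw : w ∈ S) : (rot u (mkN u (5 * u)) v).testBit w = false := by
  rw [← Bool.not_eq_true, rot_testBit (hS.1 v hv) (hS.1 w hw)]
  rintro (⟨h1, h2⟩ | ⟨h1, h2⟩)
  · rcases Nat.lt_or_eq_of_le h1 with h | h
    · exact hS.2 v hv w hw h h2
    · subst h
      unfold EE at h2
      omega
  · rw [EE_symm hu (by have := hS.1 v hv; omega)] at h2
    exact hS.2 w hw v hv h1 h2

theorem pc_eq (n x : ℕ) : pc n x = ((Finset.range n).filter (fun i => x.testBit i = true)).card := by
  induction n generalizing x with
  | zero => simp [pc]
  | succ n ih =>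
    rw [pc, ih]
    have h1 : (Finset.range (n + 1)).filter (fun i => x.testBit i = true) =
        ((Finset.range 1).filter (fun i => x.testBit i = true)) ∪
        (((Finset.range n).filter (fun i => (x / 2).testBit i = true)).image (· + 1)) := by
      ext i
      simp only [Finset.mem_filter, Finset.mem_range, Finset.mem_union, Finset.mem_image]
      constructor
      · rintro ⟨h1, h2⟩
        rcases Nat.eq_zero_or_pos i with h | h
        · left; subst h; exact ⟨by omega, h2⟩
        · right
          obtain ⟨j, rfl⟩ : ∃ j, i = j + 1 := ⟨i - 1, by omega⟩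
          refine ⟨j, ⟨by omega, ?_⟩, rfl⟩
          rwa [Nat.testBit_succ] at h2
      · rintro (⟨h1, h2⟩ | ⟨j, ⟨h1, h2⟩, rfl⟩)
        · exact ⟨by omega, h2⟩
        · refine ⟨by omega, ?_⟩
          rw [Nat.testBit_succ]; exact h2
    rw [h1, Finset.card_union_of_disjoint, Finset.card_image_of_injective]
    · congr 1
      rw [Finset.range_one, Finset.filter_singleton]
      rcases Nat.mod_two_eq_zero_or_one x with h | h
      · simp [Nat.testBit_zero, h]
      · simp [Nat.testBit_zero, h]
    · intro a b hab; simpa using hab
    · rw [Finset.disjoint_left]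
      intro i hi hi'
      simp only [Finset.mem_filter, Finset.mem_range, Finset.mem_image] at hi hi'
      omega

/-- The elements of `S` in the residue class `a`. -/
def cls (u : ℕ) (S : Finset ℕ) (a : ℕ) : Finset ℕ := S.filter (fun x => x % u = a)

theorem anyM_testBit {u al a : ℕ} :
    (anyM u al).testBit a = (al.testBit a || al.testBit (u + a) || al.testBit (2 * u + a) ||
      al.testBit (3 * u + a) || al.testBit (4 * u + a)) := by
  unfold anyM
  simp only [Nat.testBit_lor, Nat.testBit_shiftRight]

theorem twoM_testBit {u al a : ℕ} :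
    (twoM u al).testBit a =
      ((al.testBit a && al.testBit (2 * u + a)) ||
      (al.testBit (u + a) && al.testBit (2 * u + (u + a))) ||
      (al.testBit (2 * u + a) && al.testBit (2 * u + (2 * u + a))) ||
      (al.testBit a && al.testBit (3 * u + a)) ||
      (al.testBit (u + a) && al.testBit (4 * u + a))) := by
  unfold twoM
  simp only [Nat.testBit_lor, Nat.testBit_shiftRight, Nat.testBit_land]

theorem exists_index {u x : ℕ} (hu : 0 < u) (hx : x < 5 * u) :
    x = x % u ∨ x = u + x % u ∨ x = 2 * u + x % u ∨ x = 3 * u + x % u ∨ x = 4 * u + x % u := by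
  have h1 := Nat.div_add_mod x u
  have h2 : x / u < 5 := by rw [Nat.div_lt_iff_lt_mul hu]; exact hx
  generalize x / u = q at h1 h2
  have h3 : q = 0 ∨ q = 1 ∨ q = 2 ∨ q = 3 ∨ q = 4 := by omega
  rcases h3 with h | h | h | h | h <;> subst h <;> omega

theorem cls_card_le {u : ℕ} (hu : 15 ≤ u) {S : Finset ℕ} (hS : Ind u S) {al : ℕ}
    (hal : ∀ x ∈ S, al.testBit x = true) {a : ℕ} :
    (cls u S a).card ≤ (if (anyM u al).testBit a = true then 1 else 0) +
      (if (twoM u al).testBit a = true then 1 else 0) ∧
    ((twoM u al).testBit a = false → (cls u S a).card ≤ 1) := by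
  have hmem : ∀ x ∈ cls u S a, x ∈ S ∧ (x = a ∨ x = u + a ∨ x = 2 * u + a ∨ x = 3 * u + a ∨
      x = 4 * u + a) := by
    intro x hx
    obtain ⟨h1, h2⟩ := Finset.mem_filter.1 hx
    have := exists_index (by omega) (hS.1 x h1)
    rw [h2] at this
    exact ⟨h1, this⟩
  -- two different elements of the class
  have hpair : ∀ x ∈ cls u S a, ∀ y ∈ cls u S a, x < y →
      (twoM u al).testBit a = true ∧ (y = x + 2 * u ∨ y = x + 3 * u) := by
    intro x hx y hy hxy
    obtain ⟨hxS, hx'⟩ := hmem x hx
    obtain ⟨hyS, hy'⟩ := hmem y hy
    have h := hS.2 x hxS y hyS hxy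
    have hbx := hal x hxS
    have hby := hal y hyS
    rw [twoM_testBit]
    have hd : y = x + 2 * u ∨ y = x + 3 * u := by
      unfold EE at h
      omega
    refine ⟨?_, hd⟩
    rcases hx' with h0 | h0 | h0 | h0 | h0
    · rcases hd with hd | hd
      · have e : y = 2 * u + a := by omega
        rw [h0] at hbx; rw [e] at hby; simp [hbx, hby]
      · have e : y = 3 * u + a := by omega
        rw [h0] at hbx; rw [e] at hby; simp [hbx, hby]
    · rcases hd with hd | hd
      · have e : y = 2 * u + (u + a) := by omega
        rw [h0] at hbx; rw [e] at hby; simp [hbx, hby]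
      · have e : y = 4 * u + a := by omega
        rw [h0] at hbx; rw [e] at hby; simp [hbx, hby]
    · rcases hd with hd | hd
      · have e : y = 2 * u + (2 * u + a) := by omega
        rw [h0] at hbx; rw [e] at hby; simp [hbx, hby]
      · omega
    · omega
    · omega
  have hle2 : (cls u S a).card ≤ 2 := by
    by_contra hcon
    push Not at hcon
    obtain ⟨x, hx, y, hy, z, hz, hxy, hxz, hyz⟩ := Finset.two_lt_card.1 hcon
    have h1 := hpair x hx y hy
    have h2 := hpair y hy x hx
    have h3 := hpair x hx z hz
    have h4 := hpair z hz x hx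
    have h5 := hpair y hy z hz
    have h6 := hpair z hz y hy
    omega
  have hle1 : (twoM u al).testBit a = false → (cls u S a).card ≤ 1 := by
    intro h0
    rw [Finset.card_le_one]
    intro x hx y hy
    rcases lt_trichotomy x y with h | h | h
    · have := (hpair x hx y hy h).1; rw [h0] at this; exact absurd this (by simp)
    · exact h
    · have := (hpair y hy x hx h).1; rw [h0] at this; exact absurd this (by simp)
  have hle0 : (anyM u al).testBit a = false → (cls u S a).card = 0 := by
    intro h0
    rw [Finset.card_eq_zero, Finset.eq_empty_iff_forall_notMem]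
    intro x hx
    obtain ⟨hxS, hx'⟩ := hmem x hx
    have hbx := hal x hxS
    rw [anyM_testBit] at h0
    simp only [Bool.or_eq_false_iff] at h0
    rcases hx' with h | h | h | h | h <;> rw [h] at hbx <;> simp_all
  refine ⟨?_, hle1⟩
  by_cases hany : (anyM u al).testBit a = true
  · by_cases htwo : (twoM u al).testBit a = true
    · rw [if_pos hany, if_pos htwo]; exact hle2
    · rw [if_pos hany, if_neg htwo]; exact hle1 (by simpa using htwo)
  · rw [hle0 (by simpa using hany)]; exact Nat.zero_le _

theorem leaf_sound {u : ℕ} (hu : 15 ≤ u) {S : Finset ℕ} (hS : Ind u S) {al cap : ℕ}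
    (hal : ∀ x ∈ S, al.testBit x = true)
    (hcap : ∀ a, a < u → cap.testBit a = true → (cls u S a).card ≤ 1)
    (hleaf : leafOK u al cap = true) : S.card ≤ u + 1 := by
  have h1 : S.card = ∑ a ∈ Finset.range u, (cls u S a).card := by
    rw [Finset.card_eq_sum_card_fiberwise (f := fun x => x % u) (t := Finset.range u)]
    · rfl
    · intro x _
      exact Finset.mem_coe.2 (Finset.mem_range.2 (Nat.mod_lt x (by omega)))
  have h2 : ∀ a ∈ Finset.range u, (cls u S a).card ≤
      (if (anyM u al).testBit a = true then 1 else 0) +
      (if (msub (twoM u al) cap).testBit a = true then 1 else 0) := by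
    intro a ha
    rw [Finset.mem_range] at ha
    have h3 := cls_card_le hu hS hal (a := a)
    by_cases hc : cap.testBit a = true
    · have h4 := hcap a ha hc
      have h5 : (msub (twoM u al) cap).testBit a = false := by
        rw [msub_testBit, hc]; simp
      rw [h5]
      by_cases hany : (anyM u al).testBit a = true
      · rw [if_pos hany]; exact h4.trans (Nat.le_add_right _ _)
      · have h6 : (twoM u al).testBit a = false := by
          rw [← Bool.not_eq_true]
          intro h7
          apply hany
          rw [anyM_testBit]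
          rw [twoM_testBit] at h7
          simp only [Bool.or_eq_true, Bool.and_eq_true] at h7 ⊢
          tauto
        have h8 := h3.1
        rw [if_neg hany, h6] at h8
        rw [if_neg hany]
        simpa using h8
    · have h5 : (msub (twoM u al) cap).testBit a = (twoM u al).testBit a := by
        rw [msub_testBit]; simp [hc]
      rw [h5]
      exact h3.1
  unfold leafOK at hleaf
  have h3 : pc u (anyM u al) + pc u (msub (twoM u al) cap) ≤ u + 1 := Nat.le_of_ble_eq_true hleaf
  rw [pc_eq, pc_eq, Finset.card_filter, Finset.card_filter, ← Finset.sum_add_distrib] at h3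
  rw [h1]
  exact (Finset.sum_le_sum h2).trans h3

theorem run_sound {u : ℕ} (hu : 15 ≤ u) {S : Finset ℕ} (hS : Ind u S) :
    ∀ (f s al cap s' : ℕ), run u (mkN u (5 * u)) f s al cap = some s' →
      (∀ x ∈ S, al.testBit x = true) →
      (∀ a, a < u → cap.testBit a = true → (cls u S a).card ≤ 1) → S.card ≤ u + 1 := by
  intro f
  induction f with
  | zero => intro s al cap s' h; simp [run] at h
  | succ f ih =>
    intro s al cap s' h hal hcap
    rw [run] at h
    dsimp only at h
    by_cases h1 : s % 512 = 0
    · rw [if_pos h1] at h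
      by_cases h2 : leafOK u al cap = true
      · exact leaf_sound hu hS hal hcap h2
      · rw [if_neg h2] at h; exact absurd h (by simp)
    rw [if_neg h1] at h
    by_cases h3 : s % 512 < 256
    · -- vertex node
      rw [if_pos h3, Option.bind_eq_some_iff] at h
      obtain ⟨s2, hs2, hs3⟩ := h
      by_cases hv : s % 512 - 1 ∈ S
      · refine ih _ _ _ _ hs2 ?_ hcap
        intro x hx
        rw [msub_testBit, hal x hx, not_rot hu hS hv hx]; rfl
      · refine ih _ _ _ _ hs3 ?_ hcap
        intro x hx
        rw [msub_testBit, hal x hx, Nat.one_shiftLeft, Nat.testBit_two_pow]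
        have : s % 512 - 1 ≠ x := fun h => hv (h ▸ hx)
        simp [this]
    · -- cap node
      rw [if_neg h3] at h
      simp only [Option.bind_eq_some_iff] at h
      obtain ⟨s1, hb1, s2, hb2, s3, hb3, s4, hb4, s5, hb5, hb6⟩ := h
      set a := s % 512 - 256 with ha
      have hbr : ∀ i j t t' : ℕ, i * u + a ∈ S → j * u + a ∈ S →
          (if (al.testBit (i * u + a) && al.testBit (j * u + a)) = true then
            run u (mkN u (5 * u)) f t (msub (msub al (rot u (mkN u (5 * u)) (i * u + a)))
              (rot u (mkN u (5 * u)) (j * u + a))) cap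
          else some t) = some t' → S.card ≤ u + 1 := by
        intro i j t t' hi hj hbr
        rw [hal _ hi, hal _ hj] at hbr
        simp only [Bool.and_self, if_true] at hbr
        refine ih _ _ _ _ hbr ?_ hcap
        intro x hx
        rw [msub_testBit, msub_testBit, hal x hx, not_rot hu hS hi hx, not_rot hu hS hj hx]
        rfl
      by_cases h02 : 0 * u + a ∈ S ∧ 2 * u + a ∈ S
      · exact hbr 0 2 _ _ h02.1 h02.2 hb1
      by_cases h13 : 1 * u + a ∈ S ∧ 3 * u + a ∈ S
      · exact hbr 1 3 _ _ h13.1 h13.2 hb2
      by_cases h24 : 2 * u + a ∈ S ∧ 4 * u + a ∈ S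
      · exact hbr 2 4 _ _ h24.1 h24.2 hb3
      by_cases h30 : 3 * u + a ∈ S ∧ 0 * u + a ∈ S
      · exact hbr 3 0 _ _ h30.1 h30.2 hb4
      by_cases h41 : 4 * u + a ∈ S ∧ 1 * u + a ∈ S
      · exact hbr 4 1 _ _ h41.1 h41.2 hb5
      refine ih _ _ _ _ hb6 hal ?_
      intro b hb hcb
      rw [Nat.testBit_lor, Nat.one_shiftLeft, Nat.testBit_two_pow] at hcb
      by_cases hcapb : cap.testBit b = true
      · exact hcap b hb hcapb
      · have hab : a = b := by simpa [hcapb] using hcb
        rw [← hab]
        -- no pair in the class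
        rw [Finset.card_le_one]
        have key : ∀ x ∈ cls u S a, ∀ y ∈ cls u S a, ¬ x < y := by
          intro x hx y hy hxy
          obtain ⟨hxS, hxa⟩ := Finset.mem_filter.1 hx
          obtain ⟨hyS, hya⟩ := Finset.mem_filter.1 hy
          have hx' := exists_index (by omega) (hS.1 x hxS)
          have hy' := exists_index (by omega) (hS.1 y hyS)
          rw [hxa] at hx'
          rw [hya] at hy'
          have h := hS.2 x hxS y hyS hxy
          have hd : y = x + 2 * u ∨ y = x + 3 * u := by
            unfold EE at h
            omega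
          rcases hx' with h0 | h0 | h0 | h0 | h0
          · rcases hd with hd | hd
            · exact h02 ⟨by rw [Nat.zero_mul, Nat.zero_add, ← h0]; exact hxS,
                by rw [show 2 * u + a = y by omega]; exact hyS⟩
            · exact h30 ⟨by rw [show 3 * u + a = y by omega]; exact hyS,
                by rw [Nat.zero_mul, Nat.zero_add, ← h0]; exact hxS⟩
          · rcases hd with hd | hd
            · exact h13 ⟨by rw [Nat.one_mul, ← h0]; exact hxS,
                by rw [show 3 * u + a = y by omega]; exact hyS⟩
            · exact h41 ⟨by rw [show 4 * u + a = y by omega]; exact hyS,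
                by rw [Nat.one_mul, ← h0]; exact hxS⟩
          · rcases hd with hd | hd
            · exact h24 ⟨by rw [← h0]; exact hxS, by rw [show 4 * u + a = y by omega]; exact hyS⟩
            · omega
          · omega
          · omega
        intro x hx y hy
        rcases lt_trichotomy x y with h | h | h
        · exact absurd h (key x hx y hy)
        · exact h
        · exact absurd h (key y hy x hx)

theorem check_sound {u f s : ℕ} (hu : 15 ≤ u) (h : check u f s = true) {S : Finset ℕ}
    (hS : Ind u S) (h0 : 0 ∈ S) (h2 : 2 * u ∈ S) : S.card ≤ u + 1 := by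
  unfold check at h
  rw [Option.isSome_iff_exists] at h
  obtain ⟨s', hs'⟩ := h
  refine run_sound hu hS f s _ _ s' hs' ?_ ?_
  · intro x hx
    rw [msub_testBit, msub_testBit, not_rot hu hS h0 hx, not_rot hu hS h2 hx,
      Nat.testBit_two_pow_sub_one]
    simp [hS.1 x hx]
  · intro a _ hc
    simp at hc

end Pool.Agent.H53.Circ
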