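import Pool.Agent.H53.StarBounds

/-!
# Choice of the bias and of the remainder
-/

namespace Pool.Agent.H53.AE

open Filter

theorem choose_two_real (n : ℕ) : ((n.choose 2 : ℕ) : ℝ) = n * (n - 1) / 2 :=
  Nat.cast_choose_two ℝ n

/-- For large `n` there is a bias of order `n ^ (k / (k - 1))` for which Enforcer wins. -/
theorem exists_enforcer {n k : ℕ} (hk : 3 ≤ k) {y : ℝ} (hyn : y ^ (k - 1) = n)
    (hy : 1024 * (k : ℝ) ^ 2 ≤ y) (hn : 16 * k ≤ n) :
    ∃ b : ℕ, n * y / (512 * k ^ 2) ≤ b ∧ EnforcerWinsStar n k b := by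
  have hk0 : (3 : ℝ) ≤ k := by exact_mod_cast hk
  have hnk : 16 * (k : ℝ) ≤ n := by exact_mod_cast hn
  have hk2 : (9 : ℝ) ≤ (k : ℝ) ^ 2 := by nlinarith
  have hy1 : 1 ≤ y := by linarith
  have hy0 : 0 < y := by linarith
  have hn0 : 0 < (n : ℝ) := by linarith
  have hyn1 : y ≤ n := by
    rw [← hyn]; exact le_self_pow₀ hy1 (by omega)
  set N : ℕ := n.choose 2 with hN
  have hNr : (N : ℝ) = n * (n - 1) / 2 := choose_two_real n
  set T : ℕ := ⌊(n : ℝ) * y / (64 * k ^ 2)⌋₊ with hT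
  have hT1 : (T : ℝ) ≤ n * y / (64 * k ^ 2) := Nat.floor_le (by positivity)
  have hT2 : (n : ℝ) * y / (64 * k ^ 2) < T + 1 := Nat.lt_floor_add_one _
  have hbig : (768 : ℝ) ≤ n * y / (64 * k ^ 2) := by
    rw [le_div_iff₀ (by positivity)]
    nlinarith
  have hTN : (T : ℝ) ≤ N := by
    have h1 : (n : ℝ) * y / (64 * k ^ 2) ≤ n * n / 576 := by
      rw [div_le_div_iff₀ (by positivity) (by norm_num)]
      nlinarith [mul_le_mul_of_nonneg_left hyn1 hn0.le, mul_pos hn0 hn0, mul_pos hn0 hy0]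
    rw [hNr]
    nlinarith
  have hTN' : T ≤ N := by exact_mod_cast hTN
  have hTpos : 0 < T := by
    have : (0 : ℝ) < T := by linarith
    exact_mod_cast this
  set m : ℕ := N / T + 1 with hm
  have hmpos : 0 < m := Nat.succ_pos _
  set q : ℕ := (N - 1) / m with hq
  have hm1 : N < T * m := by rw [hm]; exact Nat.lt_mul_div_succ N hTpos
  have hmr : (m : ℝ) ≤ N / T + 1 := by
    rw [hm]; push_cast
    have := @Nat.cast_div_le ℝ _ _ _ N T
    linarith
  have hq1 : m * q ≤ N - 1 := Nat.mul_div_le (N - 1) m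
  have hq2 : N - 1 < m * (q + 1) := Nat.lt_mul_div_succ (N - 1) hmpos
  have hqT : q ≤ T := by
    by_contra hcon
    push Not at hcon
    have h1 : m * T ≤ m * q := Nat.mul_le_mul_left m hcon.le
    have h2 : T * m = m * T := Nat.mul_comm T m
    omega
  -- lower bound for `q`
  have hTr0 : (0 : ℝ) < T := by exact_mod_cast hTpos
  have hq3 : (T : ℝ) / 2 ≤ q + 1 := by
    have h1 : N ≤ m * (q + 1) := by omega
    have h2 : (N : ℝ) ≤ m * (q + 1) := by exact_mod_cast h1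
    have h3 : (m : ℝ) * (q + 1) ≤ (N / T + 1) * (q + 1) := by gcongr
    have h4 : (N : ℝ) / T + 1 ≤ 2 * (N / T) := by
      have : (1 : ℝ) ≤ N / T := by rw [le_div_iff₀ hTr0]; linarith
      linarith
    have h5 : (N : ℝ) ≤ 2 * (N / T) * (q + 1) := by
      refine h2.trans (h3.trans ?_)
      gcongr
    have hN0 : (0 : ℝ) < N := by linarith
    have h6 : (2 * ((N : ℝ) / T) * (q + 1)) = N * (2 * (q + 1) / T) := by field_simp
    rw [h6] at h5
    have h7 : (1 : ℝ) ≤ 2 * (q + 1) / T := by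
      by_contra hcon
      push Not at hcon
      nlinarith
    rw [le_div_iff₀ hTr0] at h7
    linarith
  have hqpos : 0 < q := by
    have : (0 : ℝ) < q := by linarith
    exact_mod_cast this
  have hmodr : N = m * q + ((N - 1) % m + 1) := by
    have := Nat.div_add_mod (N - 1) m
    rw [← hq] at this
    have hNpos : 0 < N := by omega
    omega
  have hy64 : 64 * (k : ℝ) ^ 2 ≤ y := by linarith
  have hn8 : 8 * k ≤ n := by omega
  have hb64 : 64 * (k : ℝ) ^ 2 * ((q - 1 : ℕ) : ℝ) ≤ n * y := by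
    have h1 : ((q - 1 : ℕ) : ℝ) ≤ T := by exact_mod_cast (by omega : q - 1 ≤ T)
    have h2 : ((q - 1 : ℕ) : ℝ) ≤ n * y / (64 * k ^ 2) := h1.trans hT1
    rw [le_div_iff₀ (by positivity)] at h2
    linarith
  have hmodq : n.choose 2 ≡ (N - 1) % m + 1 [MOD (q - 1 + 1)] := by
    rw [Nat.sub_add_cancel hqpos, ← hN]
    have h2 : m * q + ((N - 1) % m + 1) ≡ (N - 1) % m + 1 [MOD q] := by
      have := (Nat.modEq_zero_iff_dvd.2 (Dvd.intro_left m rfl : q ∣ m * q)).add_right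
        ((N - 1) % m + 1)
      rwa [Nat.zero_add] at this
    rwa [← hmodr] at h2
  have hr8 : (((N - 1) % m + 1 : ℕ) : ℝ) ≤ n / 8 := by
    have h2 : (((N - 1) % m + 1 : ℕ) : ℝ) ≤ m := by
      have := Nat.mod_lt (N - 1) hmpos
      exact_mod_cast (by omega : (N - 1) % m + 1 ≤ m)
    have h4 : (N : ℝ) / T ≤ n / 16 := by
      rw [div_le_div_iff₀ hTr0 (by norm_num)]
      have h6 : (16 : ℝ) * n ≤ n * y / (64 * k ^ 2) := by
        rw [le_div_iff₀ (by positivity)]
        have := mul_le_mul_of_nonneg_left hy hn0.le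
        linarith
      have h5 : (8 : ℝ) * n ≤ T := by linarith
      have h7 : (N : ℝ) ≤ n * n / 2 := by rw [hNr]; linarith
      have h8 : (n : ℝ) * (8 * n) ≤ n * T := mul_le_mul_of_nonneg_left h5 hn0.le
      linarith
    linarith
  refine ⟨q - 1, ?_, enforcer_small hk hn8 hy64 hyn.le hb64 (Nat.succ_pos _) hmodq ?_⟩
  · have h1 : ((q - 1 : ℕ) : ℝ) = q - 1 := by
      rw [Nat.cast_sub (by omega)]; simp
    rw [h1]
    have h2 : (n : ℝ) * y / (512 * k ^ 2) = n * y / (64 * k ^ 2) / 8 := by field_simp; ring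
    rw [h2]
    linarith
  · have h1 : (1 : ℝ) ≤ (⌈(n : ℝ) / (4 * y ^ (k - 1))⌉₊ : ℝ) := by
      have : 0 < ⌈(n : ℝ) / (4 * y ^ (k - 1))⌉₊ := Nat.ceil_pos.2 (by positivity)
      exact_mod_cast this
    calc (((N - 1) % m + 1 : ℕ) : ℝ) ≤ n / 8 := hr8
      _ = 1 * (n / 8) := by ring
      _ ≤ _ := by gcongr

/-- For large `n` there is a bias of order `n ^ ((k + 1) / k)` for which Avoider wins. -/
theorem exists_avoider {n k : ℕ} (hk : 3 ≤ k) {y : ℝ} (hyn : y ^ k = n)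
    (hy : 100 ≤ y) : ∃ b : ℕ, 1 ≤ b ∧ (b : ℝ) ≤ 19 * n * y ∧ AvoiderWinsStar n k b := by
  have hy1 : 1 ≤ y := by linarith
  have hy0 : 0 < y := by linarith
  have hyn1 : 100 * y ≤ n := by
    rw [← hyn]
    have h1 : y ^ 2 ≤ y ^ k := pow_le_pow_right₀ hy1 (by omega)
    nlinarith
  have hn0 : 0 < (n : ℝ) := by linarith
  set N : ℕ := n.choose 2 with hN
  have hNr : (N : ℝ) = n * (n - 1) / 2 := choose_two_real n
  set M : ℕ := ⌊(N : ℝ) / (9 * n * y)⌋₊ with hM
  have hP : (2 : ℝ) ≤ N / (9 * n * y) := by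
    rw [le_div_iff₀ (by positivity), hNr]
    nlinarith
  have hM1 : (M : ℝ) ≤ N / (9 * n * y) := Nat.floor_le (by positivity)
  have hM2 : (N : ℝ) / (9 * n * y) < M + 1 := Nat.lt_floor_add_one _
  have hMpos : 0 < M := by
    have : (0 : ℝ) < M := by linarith
    exact_mod_cast this
  have hMr0 : (0 : ℝ) < M := by exact_mod_cast hMpos
  set q : ℕ := (N + (M - 1)) / M with hq
  have hq1 : M * q ≤ N + (M - 1) := Nat.mul_div_le _ M
  have hq2 : N + (M - 1) < M * (q + 1) := Nat.lt_mul_div_succ _ hMpos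
  have hq3 : N ≤ M * q := by
    rw [Nat.mul_add] at hq2; omega
  have hqr : (N : ℝ) ≤ M * q := by exact_mod_cast hq3
  have hq9 : 9 * (n : ℝ) * y ≤ q := by
    have h1 : (M : ℝ) * (9 * n * y) ≤ N := by
      rw [le_div_iff₀ (by positivity)] at hM1; exact hM1
    have h2 : (M : ℝ) * (9 * n * y) ≤ M * q := h1.trans hqr
    exact le_of_mul_le_mul_left h2 hMr0
  have hMn : (M : ℝ) ≤ n := by
    refine hM1.trans ?_
    rw [div_le_iff₀ (by positivity), hNr]
    nlinarith
  have hqM : 2 * M ≤ q := by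
    have h1 : (2 * M : ℝ) ≤ q := by nlinarith
    exact_mod_cast h1
  have hqub : (q : ℝ) ≤ 19 * n * y := by
    have h1 : (q : ℝ) ≤ N / M + 1 := by
      have h2 : (M : ℝ) * q ≤ N + M := by
        have : M * q ≤ N + M := by omega
        exact_mod_cast this
      rw [← sub_le_iff_le_add, le_div_iff₀ hMr0]
      linarith
    have h3 : (N : ℝ) / M ≤ 18 * n * y := by
      rw [div_le_iff₀ hMr0]
      have h4 : (N : ℝ) / (9 * n * y) ≤ 2 * M := by linarith
      rw [div_le_iff₀ (by positivity)] at h4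
      linarith
    nlinarith
  refine ⟨q - 1, by omega, ?_, ?_⟩
  · have h1 : ((q - 1 : ℕ) : ℝ) ≤ q := by exact_mod_cast Nat.sub_le q 1
    linarith
  · have hqq : q - 1 + 1 = q := by omega
    have hN2 : N = (M - 1) * q + (N - (M - 1) * q) := by
      have h1 : (M - 1) * q ≤ N := by
        have h2 : (M - 1) * q + q = M * q := by
          rw [← Nat.succ_mul]; congr 1; omega
        omega
      omega
    have hMq : (M - 1) * q + q = M * q := by
      rw [← Nat.succ_mul]; congr 1; omega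
    refine avoider_remainder (r := N - (M - 1) * q) (by omega) hy1 hyn ?_ ?_ ?_ ?_
    · have h1 : (((q - 1 : ℕ) : ℝ)) + 1 = q := by exact_mod_cast hqq
      rw [h1]; exact hq9
    · omega
    · omega
    · rw [← hN, hqq]
      conv_lhs => rw [hN2]
      have := (Nat.modEq_zero_iff_dvd.2 (Dvd.intro_left (M - 1) rfl : q ∣ (M - 1) * q)).add_right
          (N - (M - 1) * q)
      rwa [Nat.zero_add] at this

/-- For large `n` and any bias up to order `n ^ ((k + 1) / k)` Enforcer wins. -/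
theorem enforcer_all {n k b : ℕ} (hk : 3 ≤ k) {y : ℝ} (hyn : y ^ k = n)
    (hy : 64 * (k : ℝ) ^ 2 ≤ y) (hn : 8 * k ≤ n) (hb1 : 1 ≤ b)
    (hb : 64 * (k : ℝ) ^ 2 * b ≤ n * y) : EnforcerWinsStar n k b := by
  have hk0 : (3 : ℝ) ≤ k := by exact_mod_cast hk
  have hk2 : (9 : ℝ) ≤ (k : ℝ) ^ 2 := by nlinarith
  have hy1 : 1 ≤ y := by linarith
  have hy0 : 0 < y := by linarith
  have hn0 : 0 < (n : ℝ) := by rw [← hyn]; positivity
  set N : ℕ := n.choose 2 with hN
  have hNpos : 0 < N := Nat.choose_pos (by omega)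
  have hyk : y ^ (k - 1) ≤ n := by
    rw [← hyn]; exact pow_le_pow_right₀ hy1 (by omega)
  refine enforcer_small (r := (N - 1) % (b + 1) + 1) hk hn hy hyk hb (by omega) ?_ ?_
  · rw [← hN]
    have h1 : N = (N - 1) + 1 := by omega
    conv_lhs => rw [h1]
    exact (Nat.mod_modEq (N - 1) (b + 1)).symm.add_right 1
  · have h1 : (((N - 1) % (b + 1) + 1 : ℕ) : ℝ) ≤ 2 * b := by
      have := Nat.mod_lt (N - 1) (show 0 < b + 1 by omega)
      exact_mod_cast (by omega : (N - 1) % (b + 1) + 1 ≤ 2 * b)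
    have h2 : (n : ℝ) / (4 * y ^ (k - 1)) = y / 4 := by
      obtain ⟨l, rfl⟩ : ∃ l, k = l + 1 := ⟨k - 1, by omega⟩
      rw [← hyn, Nat.add_sub_cancel]
      field_simp
      ring
    have h3 := Nat.le_ceil ((n : ℝ) / (4 * y ^ (k - 1)))
    rw [h2] at h3 ⊢
    have hb' : (b : ℝ) ≤ n * y / 64 := by
      rw [le_div_iff₀ (by norm_num)]
      nlinarith [(Nat.cast_nonneg b : (0 : ℝ) ≤ b)]
    calc (((N - 1) % (b + 1) + 1 : ℕ) : ℝ) ≤ 2 * b := h1
      _ ≤ y / 4 * (n / 8) := by linarith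
      _ ≤ _ := by gcongr

end Pool.Agent.H53.AE
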