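import Pool.Agent.H53.StarGame

/-!
# Bounds for the threshold biases of the `k`-star game
-/

namespace Pool.Agent.H53.AE

open Filter

theorem avoider_iff (n k b : ℕ) : AvoiderWinsStar n k b ↔ ¬ EnforcerWinsStar n k b :=
  avoiderWins_iff_not_enforcerWins _ _ _ _ _ rfl

/-- The bounds on the number of vertices of Avoider's degree at least `j`. -/
def Xseq (n b : ℕ) : ℕ → ℕ
  | 0 => n
  | j + 1 => 2 * ((n * Xseq n b j + b) / (b + 1))

theorem choose_le (n : ℕ) : n.choose 2 ≤ n * n := by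
  rw [Nat.choose_two_right]
  exact (Nat.div_le_self _ _).trans (Nat.mul_le_mul_left n (Nat.sub_le n 1))

theorem Xseq_bound {n b : ℕ} {y : ℝ} (hy : 1 ≤ y) (hb : 4 * (n : ℝ) * y ≤ b + 1) :
    ∀ j : ℕ, y ^ j ≤ n → (Xseq n b j : ℝ) ≤ 4 * n / y ^ j := by
  intro j
  induction j with
  | zero => intro _; simp only [Xseq, pow_zero, div_one]; nlinarith [(Nat.cast_nonneg n : (0:ℝ) ≤ n)]
  | succ j ih =>
    intro hj
    have hy0 : 0 < y := by linarith
    have hyj : y ^ j ≤ n := le_trans (pow_le_pow_right₀ hy (Nat.le_succ j)) hj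
    have hn : 0 < (n : ℝ) := lt_of_lt_of_le (by positivity) hj
    have h1 := ih hyj
    have h2 : (Xseq n b (j + 1) : ℝ) ≤ 2 * ((n * Xseq n b j + b) / (b + 1)) := by
      simp only [Xseq]
      push_cast
      have := @Nat.cast_div_le ℝ _ _ _ (n * Xseq n b j + b) (b + 1)
      push_cast at this
      linarith
    have hb0 : (0 : ℝ) < b + 1 := by positivity
    have h3 : ((n : ℝ) * Xseq n b j + b) / (b + 1) ≤ n / y ^ (j + 1) + 1 := by
      rw [div_le_iff₀ hb0]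
      have h4 : (n : ℝ) * Xseq n b j ≤ n * (4 * n / y ^ j) := by gcongr
      have h5 : (n : ℝ) * (4 * n / y ^ j) = n / y ^ (j + 1) * (4 * n * y) := by
        field_simp
        ring
      have h6 : (n : ℝ) / y ^ (j + 1) * (4 * n * y) ≤ n / y ^ (j + 1) * (b + 1) := by
        gcongr
      nlinarith
    have h7 : (1 : ℝ) ≤ n / y ^ (j + 1) := by
      rw [le_div_iff₀ (by positivity)]; linarith
    have h8 : (4 : ℝ) * n / y ^ (j + 1) = 4 * (n / y ^ (j + 1)) := by ring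
    rw [h8]
    linarith

/-- For `b + 1 ≥ 4 n ^ (k / (k - 1))` Avoider wins. -/
theorem avoider_large {n k b : ℕ} (hk : 3 ≤ k) {y : ℝ} (hy : 1 ≤ y) (hyn : y ^ (k - 1) = n)
    (hb : 4 * (n : ℝ) * y ≤ b + 1) : AvoiderWinsStar n k b := by
  have hy0 : 0 < y := by linarith
  have hX2 : Xseq n b (k - 1) ≤ 2 := by
    obtain ⟨l, hl⟩ : ∃ l, k - 1 = l + 1 := ⟨k - 2, by omega⟩
    rw [hl] at hyn ⊢
    simp only [Xseq]
    have h1 : y ^ l ≤ n := by
      rw [← hyn]; exact pow_le_pow_right₀ hy (Nat.le_succ l)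
    have h2 := Xseq_bound hy hb l h1
    have h3 : (n : ℝ) * Xseq n b l ≤ b + 1 := by
      have h4 : (n : ℝ) * Xseq n b l ≤ n * (4 * n / y ^ l) := by gcongr
      have h5 : (n : ℝ) * (4 * n / y ^ l) = 4 * n * y := by
        rw [← hyn]; field_simp; ring
      linarith
    have h4 : n * Xseq n b l ≤ b + 1 := by exact_mod_cast h3
    have h5 : (n * Xseq n b l + b) / (b + 1) < 2 := by
      rw [Nat.div_lt_iff_lt_mul (by omega)]; omega
    omega
  refine avoider_star (by omega) (Xseq n b) ?_ ?_ ?_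
  · simp only [Xseq]
    have := Nat.div_le_div_right (c := b + 1) (Nat.add_le_add_right (choose_le n) b)
    omega
  · intro j _ _
    simp only [Xseq, le_refl]
  · intro f a hf _ ha
    have h1 : 1 ≤ (f + b) / (b + 1) := by
      rw [Nat.le_div_iff_mul_le (by omega)]; omega
    have h2 : a = 0 := by omega
    rw [h2]; simpa using hf

/-- For `b + 1 ≥ 9 n ^ ((k + 1) / k)` and a remainder `r ≥ (b + 1) / 2`, Avoider wins. -/
theorem avoider_remainder {n k b r : ℕ} (hk : 2 ≤ k) {y : ℝ} (hy : 1 ≤ y) (hyn : y ^ k = n)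
    (hb : 9 * (n : ℝ) * y ≤ b + 1) (hr : b + 1 ≤ 2 * r) (hrb : r ≤ b + 1)
    (hmod : n.choose 2 ≡ r [MOD (b + 1)]) : AvoiderWinsStar n k b := by
  have hy0 : 0 < y := by linarith
  have hn0 : 0 < (n : ℝ) := by rw [← hyn]; positivity
  have hX : 2 * (n * Xseq n b (k - 1)) < b + 1 := by
    obtain ⟨l, hl⟩ : ∃ l, k = l + 1 := ⟨k - 1, by omega⟩
    rw [hl] at hyn ⊢
    simp only [Nat.add_sub_cancel]
    have h1 : y ^ l ≤ n := by
      rw [← hyn]; exact pow_le_pow_right₀ hy (Nat.le_succ l)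
    have h2 := Xseq_bound hy (by nlinarith : 4 * (n : ℝ) * y ≤ b + 1) l h1
    have h4 : (n : ℝ) * Xseq n b l ≤ n * (4 * n / y ^ l) := by gcongr
    have h5 : (n : ℝ) * (4 * n / y ^ l) = 4 * n * y := by
      rw [← hyn]; field_simp; ring
    have h6 : 2 * ((n : ℝ) * Xseq n b l) < b + 1 := by nlinarith [mul_pos hn0 hy0]
    exact_mod_cast h6
  refine avoider_star hk (Xseq n b) ?_ ?_ ?_
  · simp only [Xseq]
    have := Nat.div_le_div_right (c := b + 1) (Nat.add_le_add_right (choose_le n) b)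
    omega
  · intro j _ _
    simp only [Xseq, le_refl]
  · intro f a hf hmodf ha
    have h1 : a ≤ Xseq n b (k - 1) := by omega
    have h2 : n * a ≤ n * Xseq n b (k - 1) := Nat.mul_le_mul_left n h1
    have h3 : r ≤ f := by
      have h4 : f ≡ r [MOD (b + 1)] := hmodf.trans hmod
      by_contra hcon
      push Not at hcon
      have h5 := (Nat.modEq_iff_dvd' hcon.le).1 h4
      have := Nat.le_of_dvd (by omega) h5
      omega
    omega

/-- Enforcer wins if `b ≤ n y / (64 k ^ 2)` and the remainder is small enough. -/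
theorem enforcer_small {n k b r : ℕ} (hk : 3 ≤ k) (hn : 8 * k ≤ n) {y : ℝ}
    (hy : 64 * (k : ℝ) ^ 2 ≤ y) (hyn : y ^ (k - 1) ≤ n)
    (hb : 64 * (k : ℝ) ^ 2 * b ≤ n * y) (hr : 1 ≤ r) (hmod : n.choose 2 ≡ r [MOD (b + 1)])
    (hfin : (r : ℝ) ≤ (⌈(n : ℝ) / (4 * y ^ (k - 1))⌉₊ : ℝ) * (n / 8)) :
    EnforcerWinsStar n k b := by
  have hk0 : (3 : ℝ) ≤ k := by exact_mod_cast hk
  have hnk : 8 * (k : ℝ) ≤ n := by exact_mod_cast hn
  have hy1 : 1 ≤ y := by nlinarith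
  have hy0 : 0 < y := by linarith
  have hn0 : 0 < (n : ℝ) := by linarith
  set d : ℕ := n / (4 * k) with hd
  set s : ℕ := n / 4 with hs
  have hsn : s + (k - 1) * d ≤ n / 2 := by
    have h1 : 4 * k * d ≤ n := Nat.mul_div_le n (4 * k)
    have h2 : 4 * s ≤ n := Nat.mul_div_le n 4
    have h3 : 2 ≤ d := by
      rw [hd, Nat.le_div_iff_mul_le (by omega)]; omega
    obtain ⟨l, rfl⟩ : ∃ l, k = l + 1 := ⟨k - 1, by omega⟩
    simp only [Nat.add_sub_cancel]
    rw [Nat.le_div_iff_mul_le (by omega)]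
    nlinarith
  have hks : k ≤ s := by rw [hs, Nat.le_div_iff_mul_le (by omega)]; omega
  have hdreal : (n : ℝ) / (8 * k) ≤ d := by
    have h1 : n < 4 * k * (d + 1) := by
      rw [hd]
      exact Nat.lt_mul_div_succ n (by omega)
    have h2 : (n : ℝ) < 4 * k * (d + 1) := by exact_mod_cast h1
    rw [div_le_iff₀ (by positivity)]
    nlinarith
  have hsreal : (n : ℝ) / 8 ≤ ((s - (k - 1) : ℕ) : ℝ) := by
    have h1 : n ≤ 8 * (s - (k - 1)) := by omega
    have h2 : (n : ℝ) ≤ 8 * ((s - (k - 1) : ℕ) : ℝ) := by exact_mod_cast h1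
    linarith
  refine enforcer_star (n := n) (k := k) (b := b) (r := r) (by omega) hr (s := s) (d := d) hks
    (by omega) (fun j => ⌈(n : ℝ) / (4 * y ^ j)⌉₊) ?_ ?_ ?_ hmod hsn
  · show ⌈(n : ℝ) / (4 * y ^ 0)⌉₊ ≤ n / 2
    rw [Nat.ceil_le]
    have h1 : n ≤ 2 * (n / 2) + 1 := by omega
    have h2 : (n : ℝ) ≤ 2 * ((n / 2 : ℕ) : ℝ) + 1 := by exact_mod_cast h1
    simp only [pow_zero, mul_one]
    linarith
  · intro j hj
    show (⌈(n : ℝ) / (4 * y ^ (j + 1))⌉₊ * k + 1) * b + ⌈(n : ℝ) / (4 * y ^ (j + 1))⌉₊ * n ≤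
      ⌈(n : ℝ) / (4 * y ^ j)⌉₊ * d
    have hyj : y ^ (j + 1) ≤ n := le_trans (pow_le_pow_right₀ hy1 (by omega)) hyn
    have hpj : 0 < y ^ j := by positivity
    set z : ℝ := n / y ^ (j + 1) with hz
    have hz1 : 1 ≤ z := by rw [hz, le_div_iff₀ (by positivity)]; linarith
    have hzy : z * y = n / y ^ j := by rw [hz]; field_simp; ring
    have hM1 : (⌈(n : ℝ) / (4 * y ^ (j + 1))⌉₊ : ℝ) ≤ 5 * z / 4 := by
      have h1 := (Nat.ceil_lt_add_one (show (0 : ℝ) ≤ (n : ℝ) / (4 * y ^ (j + 1)) by positivity)).le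
      have h2 : (n : ℝ) / (4 * y ^ (j + 1)) = z / 4 := by rw [hz]; field_simp
      rw [h2] at h1 ⊢
      linarith
    have hM0 : (n : ℝ) / y ^ j / 4 ≤ (⌈(n : ℝ) / (4 * y ^ j)⌉₊ : ℝ) := by
      have h1 := Nat.le_ceil ((n : ℝ) / (4 * y ^ j))
      have h2 : (n : ℝ) / (4 * y ^ j) = n / y ^ j / 4 := by field_simp
      rw [h2] at h1 ⊢
      exact h1
    have key : ((⌈(n : ℝ) / (4 * y ^ (j + 1))⌉₊ * k + 1) * b +
        ⌈(n : ℝ) / (4 * y ^ (j + 1))⌉₊ * n : ℝ) ≤ ⌈(n : ℝ) / (4 * y ^ j)⌉₊ * d := by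
      calc ((⌈(n : ℝ) / (4 * y ^ (j + 1))⌉₊ * k + 1) * b +
          ⌈(n : ℝ) / (4 * y ^ (j + 1))⌉₊ * n : ℝ)
          ≤ (5 * z / 4 * k + 1) * b + 5 * z / 4 * n := by gcongr
        _ ≤ (5 * z / 4 * k + z) * b + 5 * z / 4 * n := by gcongr
        _ = z * ((5 * k / 4 + 1) * b + 5 / 4 * n) := by ring
        _ ≤ z * (n * y / (32 * k)) := by
          gcongr
          have hb' : (b : ℝ) ≤ n * y / (64 * k ^ 2) := by
            rw [le_div_iff₀ (by positivity)]; linarith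
          have hn' : (n : ℝ) ≤ n * y / (64 * k ^ 2) := by
            rw [le_div_iff₀ (by positivity)]; nlinarith
          calc (5 * (k : ℝ) / 4 + 1) * b + 5 / 4 * n
              ≤ (5 * (k : ℝ) / 4 + 1) * (n * y / (64 * k ^ 2)) +
                5 / 4 * (n * y / (64 * k ^ 2)) := by gcongr
            _ = (5 * (k : ℝ) / 4 + 9 / 4) * (n * y / (64 * k ^ 2)) := by ring
            _ ≤ (2 * k) * (n * y / (64 * k ^ 2)) := by
              gcongr
              linarith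
            _ = n * y / (32 * k) := by field_simp; ring
        _ = (z * y) / 4 * (n / (8 * k)) := by field_simp; ring
        _ = (n / y ^ j) / 4 * (n / (8 * k)) := by rw [hzy]
        _ ≤ ⌈(n : ℝ) / (4 * y ^ j)⌉₊ * d := by gcongr
    exact_mod_cast key
  · have h1 : (r : ℝ) ≤ (⌈(n : ℝ) / (4 * y ^ (k - 1))⌉₊ : ℝ) * ((s - (k - 1) : ℕ) : ℝ) :=
      hfin.trans (by gcongr)
    exact_mod_cast h1

end Pool.Agent.H53.AE
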