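import Mathlib

/-!
# The strict (1:b) Avoider-Enforcer `k`-star game on `K_n`: definitions
-/

namespace Pool.Agent.H53.AE

section General

variable {α : Type*} [DecidableEq α]

/-- Avoider has a winning strategy in the strict `(1 : b)` game from the position in which he is
to move, owns the set `A`, and `F` is the set of free elements; `P` is the property his final set
must not have.  Avoider claims one free element `e`, then Enforcer claims exactly `b` of the
remaining free elements (all of them if fewer than `b` remain). -/
def AvoiderWins (P : Finset α → Prop) (b : ℕ) (A F : Finset α) : Prop :=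
  if F = ∅ then ¬ P A
  else ∃ e, ∃ _ : e ∈ F, ∀ E, E ⊆ F.erase e → E.card = min b (F.erase e).card →
    AvoiderWins P b (insert e A) (F.erase e \ E)
termination_by F.card
decreasing_by
  exact lt_of_le_of_lt (Finset.card_le_card Finset.sdiff_subset)
    (Finset.card_erase_lt_of_mem (by assumption))

/-- Enforcer has a winning strategy in the strict `(1 : b)` game from the position in which
Avoider is to move, Avoider owns the set `A`, and `F` is the set of free elements; Enforcer wins
if and only if Avoider's final set has the property `P`. -/
def EnforcerWins (P : Finset α → Prop) (b : ℕ) (A F : Finset α) : Prop :=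
  if F = ∅ then P A
  else ∀ e, ∀ _ : e ∈ F, ∃ E, E ⊆ F.erase e ∧ E.card = min b (F.erase e).card ∧
    EnforcerWins P b (insert e A) (F.erase e \ E)
termination_by F.card
decreasing_by
  exact lt_of_le_of_lt (Finset.card_le_card Finset.sdiff_subset)
    (Finset.card_erase_lt_of_mem (by assumption))

end General

/-- The degree of `v` in the set of edges `A`. -/
def deg {n : ℕ} (A : Finset (Sym2 (Fin n))) (v : Fin n) : ℕ := (A.filter (fun e => v ∈ e)).card

/-- `A` contains the star with `k` edges: some vertex lies in at least `k` edges of `A`. -/
def HasStar {n : ℕ} (k : ℕ) (A : Finset (Sym2 (Fin n))) : Prop := ∃ v : Fin n, k ≤ deg A v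

/-- The edges of the complete graph on `Fin n`. -/
def edges (n : ℕ) : Finset (Sym2 (Fin n)) := (⊤ : SimpleGraph (Fin n)).edgeFinset

/-- Avoider wins the strict `(1 : b)` `k`-star game on `K_n` (Avoider moves first, all edges are
free at the start). -/
def AvoiderWinsStar (n k b : ℕ) : Prop := AvoiderWins (HasStar k) b ∅ (edges n)

/-- Enforcer wins the strict `(1 : b)` `k`-star game on `K_n` (Avoider moves first, all edges are
free at the start). -/
def EnforcerWinsStar (n k b : ℕ) : Prop := EnforcerWins (HasStar k) b ∅ (edges n)

/-- The upper threshold bias: the smallest `m` such that Avoider wins for every `b > m`. -/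
noncomputable def fPlus (n k : ℕ) : ℕ := sInf {m : ℕ | ∀ b, m < b → AvoiderWinsStar n k b}

/-- The lower threshold bias: the largest `m` such that Enforcer wins for every `1 ≤ b ≤ m`. -/
noncomputable def fMinus (n k : ℕ) : ℕ :=
  sSup {m : ℕ | ∀ b, 1 ≤ b → b ≤ m → EnforcerWinsStar n k b}

end Pool.Agent.H53.AE
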