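import Pool.Agent.H53.StarDefs

/-!
# Strict (1:b) Avoider-Enforcer games, and the `k`-star game on `K_n`
-/

namespace Pool.Agent.H53.AE

section General

variable {α : Type*} [DecidableEq α]

/-- Exactly one of the two players wins. -/
theorem avoiderWins_iff_not_enforcerWins (P : Finset α → Prop) (b : ℕ) :
    ∀ (m : ℕ) (A F : Finset α), F.card = m → (AvoiderWins P b A F ↔ ¬ EnforcerWins P b A F) := by
  intro m
  induction m using Nat.strong_induction_on with
  | _ m ih =>
    intro A F hF
    rw [AvoiderWins, EnforcerWins]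
    split_ifs with h
    · exact Iff.rfl
    · push Not
      constructor
      · rintro ⟨e, he, h1⟩
        refine ⟨e, he, fun E hE hEc => ?_⟩
        have hlt : (F.erase e \ E).card < m := by
          rw [← hF]
          exact lt_of_le_of_lt (Finset.card_le_card Finset.sdiff_subset)
            (Finset.card_erase_lt_of_mem he)
        exact (ih _ hlt _ _ rfl).1 (h1 E hE hEc)
      · rintro ⟨e, he, h1⟩
        refine ⟨e, he, fun E hE hEc => ?_⟩
        have hlt : (F.erase e \ E).card < m := by
          rw [← hF]
          exact lt_of_le_of_lt (Finset.card_le_card Finset.sdiff_subset)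
            (Finset.card_erase_lt_of_mem he)
        exact (ih _ hlt _ _ rfl).2 (h1 E hE hEc)

/-- If the position is already lost for Avoider, then Enforcer wins. -/
theorem enforcerWins_of_prop {P : Finset α → Prop} (hP : Monotone P) (b : ℕ) :
    ∀ (m : ℕ) (A F : Finset α), F.card = m → P A → EnforcerWins P b A F := by
  intro m
  induction m using Nat.strong_induction_on with
  | _ m ih =>
    intro A F hF hA
    rw [EnforcerWins]
    split_ifs with h
    · exact hA
    · intro e he
      obtain ⟨E, hE, hEc⟩ := Finset.exists_subset_card_eq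
        (show min b (F.erase e).card ≤ (F.erase e).card from min_le_right _ _)
      refine ⟨E, hE, hEc, ?_⟩
      have hlt : (F.erase e \ E).card < m := by
        rw [← hF]
        exact lt_of_le_of_lt (Finset.card_le_card Finset.sdiff_subset)
          (Finset.card_erase_lt_of_mem he)
      exact ih _ hlt _ _ rfl (hP (Finset.subset_insert e A) hA)

/-- Enforcer can win when he is to move. -/
def ET (P : Finset α → Prop) (b : ℕ) (A F : Finset α) : Prop :=
  ∃ E, E ⊆ F ∧ E.card = min b F.card ∧ EnforcerWins P b A (F \ E)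

theorem ET_of_prop {P : Finset α → Prop} (hP : Monotone P) (b : ℕ) {A F : Finset α} (hA : P A) :
    ET P b A F := by
  obtain ⟨E, hE, hEc⟩ := Finset.exists_subset_card_eq
    (show min b F.card ≤ F.card from min_le_right _ _)
  exact ⟨E, hE, hEc, enforcerWins_of_prop hP b _ _ _ rfl hA⟩

theorem enforcerWins_of_ET {P : Finset α → Prop} {b : ℕ} {A F : Finset α} (hF : F.Nonempty)
    (h : ∀ e ∈ F, ET P b (insert e A) (F.erase e)) : EnforcerWins P b A F := by
  rw [EnforcerWins, if_neg hF.ne_empty]
  intro e he
  exact h e he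

theorem ET_intro {P : Finset α → Prop} {b : ℕ} {A F E : Finset α} (hE : E ⊆ F)
    (hEc : E.card = b) (hb : b < F.card)
    (h : ∀ e ∈ F \ E, ET P b (insert e A) ((F \ E).erase e)) : ET P b A F := by
  refine ⟨E, hE, by rw [hEc, min_eq_left hb.le], enforcerWins_of_ET ?_ h⟩
  rw [Finset.nonempty_iff_ne_empty]
  intro h0
  have := Finset.card_le_card (Finset.sdiff_eq_empty_iff_subset.1 h0)
  omega

/-- If `D` is a set of free elements which Avoider can't claim without losing, with
at least as many elements as will be free at his last move, then Enforcer, to move, wins. -/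
theorem ET_of_deadly {P : Finset α → Prop} (hP : Monotone P) {b r : ℕ} (hr : 1 ≤ r) :
    ∀ (m : ℕ) (A F D : Finset α), F.card = m → D ⊆ F → r ≤ D.card →
      (∀ e ∈ D, P (insert e A)) → F.card + 1 ≡ r [MOD (b + 1)] → ET P b A F := by
  intro m
  induction m using Nat.strong_induction_on with
  | _ m ih =>
    intro A F D hF hD hDr hDP hmod
    obtain ⟨D', hD'D, hD'c⟩ := Finset.exists_subset_card_eq hDr
    have hD'F : D' ⊆ F := hD'D.trans hD
    have hcF : r ≤ F.card := hD'c ▸ Finset.card_le_card hD'F
    have hge : b + r ≤ F.card := by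
      have h1 : r ≡ F.card + 1 [MOD (b + 1)] := hmod.symm
      rw [Nat.modEq_iff_dvd' (by omega)] at h1
      have := Nat.le_of_dvd (by omega) h1
      omega
    have hcs : b ≤ (F \ D').card := by
      rw [Finset.card_sdiff_of_subset hD'F]; omega
    obtain ⟨E, hE, hEc⟩ := Finset.exists_subset_card_eq hcs
    refine ET_intro (hE.trans Finset.sdiff_subset) hEc (by omega) ?_
    intro e he
    have hEF : E ⊆ F := hE.trans Finset.sdiff_subset
    have hc1 : (F \ E).card = F.card - b := by rw [Finset.card_sdiff_of_subset hEF, hEc]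
    by_cases heD : e ∈ D'
    · exact ET_of_prop hP b (hDP e (hD'D heD))
    · have hc2 : ((F \ E).erase e).card = F.card - b - 1 := by
        rw [Finset.card_erase_of_mem he, hc1]
      refine ih _ (by omega) (insert e A) ((F \ E).erase e) D' rfl ?_ hD'c.ge ?_ ?_
      · intro x hx
        have hxE : x ∉ E := fun h => (Finset.mem_sdiff.1 (hE h)).2 hx
        exact Finset.mem_erase.2 ⟨fun h => heD (h ▸ hx),
          Finset.mem_sdiff.2 ⟨hD'F hx, hxE⟩⟩
      · intro x hx
        exact hP (Finset.insert_subset_insert x (Finset.subset_insert e A)) (hDP x (hD'D hx))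
      · rw [hc2]
        have h1 : F.card + 1 = (F.card - b - 1 + 1) + (b + 1) := by omega
        have h2 : F.card - b - 1 + 1 + (b + 1) ≡ F.card - b - 1 + 1 [MOD (b + 1)] := by
          exact Nat.add_modEq_right
        exact h2.symm.trans (h1 ▸ hmod)

/-! ### Disjoint boxes -/

variable {ι : Type*} [DecidableEq ι]

/-- The number of elements of `A` in box `i`. -/
def lev (box : α → ι) (A : Finset α) (i : ι) : ℕ := (A.filter (fun e => box e = i)).card

theorem lev_insert {box : α → ι} {A : Finset α} {e : α} (he : e ∉ A) (i : ι) :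
    lev box (insert e A) i = lev box A i + if box e = i then 1 else 0 := by
  unfold lev
  rw [Finset.filter_insert]
  split_ifs with h
  · rw [Finset.card_insert_of_notMem]
    simp [he]
  · rfl

theorem lev_sdiff {box : α → ι} {F E : Finset α} (hE : E ⊆ F) (i : ι) :
    lev box (F \ E) i + lev box E i = lev box F i := by
  unfold lev
  have h1 : (F \ E).filter (fun e => box e = i) =
      F.filter (fun e => box e = i) \ E.filter (fun e => box e = i) := by
    ext x; simp only [Finset.mem_filter, Finset.mem_sdiff]; tauto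
  rw [h1, Finset.card_sdiff_add_card_eq_card]
  exact Finset.filter_subset_filter _ hE

theorem lev_erase {box : α → ι} {F : Finset α} {e : α} (he : e ∈ F) (i : ι) :
    lev box (F.erase e) i + (if box e = i then 1 else 0) = lev box F i := by
  have h := lev_insert (box := box) (Finset.notMem_erase e F) i
  rw [Finset.insert_erase he] at h
  exact h.symm

theorem sum_lev_le {box : α → ι} (E : Finset α) (S : Finset ι) :
    ∑ i ∈ S, lev box E i ≤ E.card := by
  unfold lev
  rw [← Finset.card_biUnion]
  · apply Finset.card_le_card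
    intro x hx
    simp only [Finset.mem_biUnion, Finset.mem_filter] at hx
    obtain ⟨_, _, h, _⟩ := hx
    exact h
  · intro i _ i' _ hne
    rw [Function.onFun, Finset.disjoint_left]
    intro x hx hx'
    simp only [Finset.mem_filter] at hx hx'
    exact hne (hx.2.symm.trans hx'.2)

theorem phase {P : Finset α → Prop} (hP : Monotone P) {b r : ℕ} {box : α → ι} {I : Finset ι}
    {k : ℕ} (hbox : ∀ A, ∀ i ∈ I, k ≤ lev box A i → P A) {j M' s' W : ℕ} (hj : j ≤ k)
    (hs : k ≤ s') (hW : 1 ≤ W)
    (H : ∀ A F : Finset α, Disjoint A F → F.card + 1 ≡ r [MOD (b + 1)] → ∀ S ⊆ I, M' ≤ S.card →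
      (∀ i ∈ S, j + 1 ≤ lev box A i ∧ s' ≤ lev box A i + lev box F i ∧
        lev box A i + lev box F i ≤ W) → ET P b A F) :
    ∀ (m : ℕ) (A F : Finset α), F.card = m → Disjoint A F → F.card + 1 ≡ r [MOD (b + 1)] →
      ∀ S ⊆ I, (∀ i ∈ S, j ≤ lev box A i ∧ s' ≤ lev box A i + lev box F i ∧
        lev box A i + lev box F i ≤ W) →
      (M' * k + 1 + j * S.card) * b + M' * W ≤
        ∑ i ∈ S, (b * lev box A i +
          if lev box A i ≤ j then lev box A i + lev box F i - s' else W) →
      ET P b A F := by
  intro m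
  induction m using Nat.strong_induction_on with
  | _ m ih =>
  intro A F hF hAF hmod S hSI hS hsum
  set U := S.filter (fun i => lev box A i ≤ j) with hU
  set R := S.filter (fun i => ¬ lev box A i ≤ j) with hR
  have hUR : U.card + R.card = S.card := Finset.card_filter_add_card_filter_not _
  by_cases hRM : M' ≤ R.card
  · refine H A F hAF hmod R ((Finset.filter_subset _ _).trans hSI) hRM ?_
    intro i hi
    rw [hR, Finset.mem_filter] at hi
    exact ⟨by omega, (hS i hi.1).2.1, (hS i hi.1).2.2⟩
  by_cases hk : ∃ i ∈ S, k ≤ lev box A i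
  · obtain ⟨i, hi, hki⟩ := hk
    exact ET_of_prop hP b (hbox A i (hSI hi) hki)
  push Not at hk hRM
  -- the surplus
  set Z := ∑ i ∈ U, (lev box A i + lev box F i - s') with hZ
  have hsplit : ∑ i ∈ S, (b * lev box A i +
      if lev box A i ≤ j then lev box A i + lev box F i - s' else W) ≤
      b * j * U.card + Z + R.card * (b * k + W) := by
    rw [← Finset.sum_filter_add_sum_filter_not S (fun i => lev box A i ≤ j)]
    apply Nat.add_le_add
    · rw [← hU, hZ]
      calc ∑ i ∈ U, (b * lev box A i +
            if lev box A i ≤ j then lev box A i + lev box F i - s' else W)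
          ≤ ∑ i ∈ U, (b * j + (lev box A i + lev box F i - s')) := by
            apply Finset.sum_le_sum
            intro i hi
            rw [hU, Finset.mem_filter] at hi
            rw [if_pos hi.2]
            have := Nat.mul_le_mul_left b hi.2
            omega
        _ = b * j * U.card + ∑ i ∈ U, (lev box A i + lev box F i - s') := by
            rw [Finset.sum_add_distrib, Finset.sum_const, smul_eq_mul]; ring
    · rw [← hR]
      calc ∑ i ∈ R, (b * lev box A i +
            if lev box A i ≤ j then lev box A i + lev box F i - s' else W)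
          ≤ ∑ i ∈ R, (b * k + W) := by
            apply Finset.sum_le_sum
            intro i hi
            rw [hR, Finset.mem_filter] at hi
            rw [if_neg hi.2]
            have := Nat.mul_le_mul_left b (hk i hi.1).le
            omega
        _ = R.card * (b * k + W) := by rw [Finset.sum_const, smul_eq_mul]
  have hZb : b + 1 ≤ Z := by
    have h1 := hsum.trans hsplit
    obtain ⟨t, ht⟩ : ∃ t, M' = R.card + 1 + t := ⟨M' - R.card - 1, by omega⟩
    rw [ht, ← hUR] at h1
    nlinarith [Nat.zero_le (t * k * b), Nat.zero_le (t * W), Nat.zero_le (k * b),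
      Nat.zero_le (j * R.card * b)]
  -- the surplus sets
  have hXex : ∀ i, ∃ Xi ⊆ F.filter (fun e => box e = i),
      Xi.card = min (lev box A i + lev box F i - s') (lev box F i) := fun i =>
    Finset.exists_subset_card_eq (min_le_right _ _)
  choose Xi hXi hXic using hXex
  have hXiU : ∀ i ∈ U, (Xi i).card = lev box A i + lev box F i - s' := by
    intro i hi
    rw [hU, Finset.mem_filter] at hi
    rw [hXic, min_eq_left]
    omega
  set X := U.biUnion Xi with hX
  have hXc : X.card = Z := by
    rw [hX, Finset.card_biUnion, hZ]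
    · exact Finset.sum_congr rfl hXiU
    · intro i _ i' _ hne
      rw [Function.onFun, Finset.disjoint_left]
      intro x hx hx'
      have h1 := (Finset.mem_filter.1 (hXi i hx)).2
      have h2 := (Finset.mem_filter.1 (hXi i' hx')).2
      exact hne (h1.symm.trans h2)
  have hXF : X ⊆ F := by
    intro x hx
    rw [hX, Finset.mem_biUnion] at hx
    obtain ⟨i, _, hx⟩ := hx
    exact (Finset.mem_filter.1 (hXi i hx)).1
  have hbF : b < F.card := by
    have := Finset.card_le_card hXF
    omega
  set G := F.filter (fun e => box e ∉ S) with hG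
  have hGF : G ⊆ F := Finset.filter_subset _ _
  -- lev of subsets of X
  have hXlev : ∀ i ∈ S, lev box X i ≤ if lev box A i ≤ j then
      lev box A i + lev box F i - s' else 0 := by
    intro i hi
    unfold lev
    split_ifs with h
    · have hiU : i ∈ U := by rw [hU, Finset.mem_filter]; exact ⟨hi, h⟩
      have h1 : X.filter (fun e => box e = i) ⊆ Xi i := by
        intro x hx
        rw [Finset.mem_filter, hX, Finset.mem_biUnion] at hx
        obtain ⟨⟨i', _, hx'⟩, hxi⟩ := hx
        have h2 := (Finset.mem_filter.1 (hXi i' hx')).2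
        rwa [← h2.symm.trans hxi]
      exact (Finset.card_le_card h1).trans (hXiU i hiU).le
    · rw [Nat.le_zero, Finset.card_eq_zero, Finset.filter_eq_empty_iff]
      intro x hx hxi
      rw [hX, Finset.mem_biUnion] at hx
      obtain ⟨i', hi', hx'⟩ := hx
      have h2 := (Finset.mem_filter.1 (hXi i' hx')).2
      rw [hU, Finset.mem_filter] at hi'
      rw [← h2.symm.trans hxi] at h
      exact h hi'.2
  have hGlev : ∀ i ∈ S, lev box G i = 0 := by
    intro i hi
    unfold lev
    rw [Finset.card_eq_zero, Finset.filter_eq_empty_iff]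
    intro x hx hxi
    rw [hG, Finset.mem_filter] at hx
    exact hx.2 (hxi ▸ hi)
  -- the answer of Enforcer
  obtain ⟨E, hEF, hEc, hElev, hEG⟩ : ∃ E ⊆ F, E.card = b ∧
      (∀ i ∈ S, lev box E i ≤ if lev box A i ≤ j then lev box A i + lev box F i - s' else 0) ∧
      ((∀ i ∈ S, lev box E i = 0) ∨ G ⊆ E) := by
    by_cases hGb : b ≤ G.card
    · obtain ⟨E, hE, hEc⟩ := Finset.exists_subset_card_eq hGb
      have h0 : ∀ i ∈ S, lev box E i = 0 := by
        intro i hi
        have h1 := hGlev i hi
        have h2 : lev box E i ≤ lev box G i :=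
          Finset.card_le_card (Finset.filter_subset_filter _ hE)
        omega
      exact ⟨E, hE.trans hGF, hEc, fun i hi => by rw [h0 i hi]; exact Nat.zero_le _, Or.inl h0⟩
    · push Not at hGb
      have h1 : b - G.card ≤ X.card := by omega
      obtain ⟨E', hE', hEc'⟩ := Finset.exists_subset_card_eq h1
      have hdisj : Disjoint G E' := by
        rw [Finset.disjoint_left]
        intro x hx hx'
        have hx2 := hE' hx'
        rw [hX, Finset.mem_biUnion] at hx2
        obtain ⟨i, hi, hx3⟩ := hx2
        have h2 := (Finset.mem_filter.1 (hXi i hx3)).2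
        rw [hU, Finset.mem_filter] at hi
        rw [hG, Finset.mem_filter] at hx
        exact hx.2 (h2 ▸ hi.1)
      refine ⟨G ∪ E', Finset.union_subset hGF (hE'.trans hXF), ?_, ?_, Or.inr
        Finset.subset_union_left⟩
      · rw [Finset.card_union_of_disjoint hdisj]; omega
      · intro i hi
        have h2 := hGlev i hi
        have h3 := hXlev i hi
        have h4 : lev box (G ∪ E') i ≤ lev box G i + lev box E' i := by
          unfold lev
          rw [Finset.filter_union]
          exact Finset.card_union_le _ _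
        have h5 : lev box E' i ≤ lev box X i :=
          Finset.card_le_card (Finset.filter_subset_filter _ hE')
        omega
  refine ET_intro hEF hEc hbF ?_
  intro e he
  have heF : e ∈ F := (Finset.mem_sdiff.1 he).1
  have heA : e ∉ A := fun h => (Finset.disjoint_left.1 hAF h) heF
  have hc : ((F \ E).erase e).card = F.card - b - 1 := by
    rw [Finset.card_erase_of_mem he, Finset.card_sdiff_of_subset hEF, hEc]
  have hA' := lev_insert (box := box) heA
  have hw' : ∀ i, lev box (insert e A) i + lev box ((F \ E).erase e) i + lev box E i =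
      lev box A i + lev box F i := by
    intro i
    have h1 := lev_erase (box := box) he i
    have h2 := lev_sdiff (box := box) hEF i
    rw [hA']
    omega
  refine ih _ (by omega) (insert e A) ((F \ E).erase e) rfl ?_ ?_ S hSI ?_ ?_
  · rw [Finset.disjoint_left]
    intro x hx hx'
    rcases Finset.mem_insert.1 hx with h | h
    · exact (Finset.mem_erase.1 hx').1 h
    · exact (Finset.disjoint_left.1 hAF h)
        (Finset.mem_sdiff.1 (Finset.mem_erase.1 hx').2).1
  · rw [hc]
    have h1 : F.card + 1 = (F.card - b - 1 + 1) + (b + 1) := by omega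
    have h2 : F.card - b - 1 + 1 + (b + 1) ≡ F.card - b - 1 + 1 [MOD (b + 1)] :=
      Nat.add_modEq_right
    exact h2.symm.trans (h1 ▸ hmod)
  · intro i hi
    have h1 := hS i hi
    have h2 := hw' i
    have h3 := hA' i
    have h4 := hElev i hi
    refine ⟨by omega, ?_, by omega⟩
    split_ifs at h4 <;> omega
  · refine hsum.trans ?_
    have hpt : ∀ i ∈ S, (b * lev box A i +
        if lev box A i ≤ j then lev box A i + lev box F i - s' else W) +
        (if box e = i then b else 0) ≤
        (b * lev box (insert e A) i +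
        if lev box (insert e A) i ≤ j then lev box (insert e A) i +
          lev box ((F \ E).erase e) i - s' else W) + lev box E i := by
      intro i hi
      have h1 := hS i hi
      have h2 := hw' i
      have h3 := hA' i
      have h4 := hElev i hi
      rw [h3] at h2 ⊢
      rw [Nat.mul_add]
      split_ifs at h2 h4 ⊢ <;> omega
    have hsum2 : (∑ i ∈ S, (b * lev box A i +
        if lev box A i ≤ j then lev box A i + lev box F i - s' else W)) +
        (∑ i ∈ S, if box e = i then b else 0) ≤
        (∑ i ∈ S, (b * lev box (insert e A) i +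
        if lev box (insert e A) i ≤ j then lev box (insert e A) i +
          lev box ((F \ E).erase e) i - s' else W)) + ∑ i ∈ S, lev box E i := by
      rw [← Finset.sum_add_distrib, ← Finset.sum_add_distrib]
      exact Finset.sum_le_sum hpt
    rcases hEG with h0 | hGE
    · rw [Finset.sum_congr rfl h0, Finset.sum_const_zero] at hsum2
      omega
    · have heS : box e ∈ S := by
        by_contra h
        exact (Finset.mem_sdiff.1 he).2 (hGE (Finset.mem_filter.2 ⟨heF, h⟩))
      rw [Finset.sum_ite_eq, if_pos heS] at hsum2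
      have := sum_lev_le (box := box) E S
      omega

theorem claim {P : Finset α → Prop} (hP : Monotone P) {b r : ℕ} (hr : 1 ≤ r) {box : α → ι}
    {I : Finset ι} {k : ℕ} (hbox : ∀ A, ∀ i ∈ I, k ≤ lev box A i → P A) {W s d : ℕ}
    (hs : k ≤ s) (hW : 1 ≤ W) (M : ℕ → ℕ)
    (hM : ∀ j, j + 1 < k → (M (j + 1) * k + 1) * b + M (j + 1) * W ≤ M j * d)
    (hfin : r ≤ M (k - 1) * (s - (k - 1))) :
    ∀ (t j : ℕ), j + t + 1 = k → ∀ A F : Finset α, Disjoint A F →
      F.card + 1 ≡ r [MOD (b + 1)] → ∀ S ⊆ I, M j ≤ S.card →
      (∀ i ∈ S, j ≤ lev box A i ∧ s + t * d ≤ lev box A i + lev box F i ∧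
        lev box A i + lev box F i ≤ W) → ET P b A F := by
  intro t
  induction t with
  | zero =>
    intro j hj A F hAF hmod S hSI hSM hS
    by_cases hk : ∃ i ∈ S, k ≤ lev box A i
    · obtain ⟨i, hi, hki⟩ := hk
      exact ET_of_prop hP b (hbox A i (hSI hi) hki)
    push Not at hk
    refine ET_of_deadly hP hr F.card A F (F.filter (fun e => box e ∈ S)) rfl
      (Finset.filter_subset _ _) ?_ ?_ hmod
    · have h1 : (F.filter (fun e => box e ∈ S)).card = ∑ i ∈ S, lev box F i := by
        rw [Finset.card_eq_sum_card_fiberwise (f := box) (t := S)]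
        · apply Finset.sum_congr rfl
          intro i hi
          unfold lev
          congr 1
          ext x
          simp only [Finset.mem_filter]
          constructor
          · rintro ⟨⟨h1, _⟩, h2⟩; exact ⟨h1, h2⟩
          · rintro ⟨h1, h2⟩; exact ⟨⟨h1, h2 ▸ hi⟩, h2⟩
        · intro x hx
          exact (Finset.mem_filter.1 (Finset.mem_coe.1 hx)).2
      have hjk : k - 1 = j := by omega
      rw [h1]
      calc r ≤ M (k - 1) * (s - (k - 1)) := hfin
        _ ≤ S.card * (s - (k - 1)) := Nat.mul_le_mul_right _ (hjk ▸ hSM)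
        _ = ∑ i ∈ S, (s - (k - 1)) := by rw [Finset.sum_const, smul_eq_mul]
        _ ≤ ∑ i ∈ S, lev box F i := by
          apply Finset.sum_le_sum
          intro i hi
          have := hS i hi
          have := hk i hi
          omega
    · intro e he
      rw [Finset.mem_filter] at he
      have heA : e ∉ A := fun h => (Finset.disjoint_left.1 hAF h) he.1
      apply hbox _ _ (hSI he.2)
      rw [lev_insert heA, if_pos rfl]
      have := hS _ he.2
      omega
  | succ t ih =>
    intro j hj A F hAF hmod S hSI hSM hS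
    refine phase hP (r := r) hbox (j := j) (M' := M (j + 1)) (s' := s + t * d) (W := W)
      (by omega) (by omega) hW ?_ F.card A F rfl hAF hmod S hSI ?_ ?_
    · intro A F hAF hmod S hSI hSM hS
      exact ih (j + 1) (by omega) A F hAF hmod S hSI hSM hS
    · intro i hi
      have := hS i hi
      rw [Nat.add_mul] at this
      omega
    · have h1 := hM j (by omega)
      have h2 : M j * d ≤ S.card * d := Nat.mul_le_mul_right _ hSM
      calc (M (j + 1) * k + 1 + j * S.card) * b + M (j + 1) * W
          = ((M (j + 1) * k + 1) * b + M (j + 1) * W) + S.card * (b * j) := by ring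
        _ ≤ S.card * d + S.card * (b * j) := by omega
        _ = ∑ i ∈ S, (b * j + d) := by rw [Finset.sum_const, smul_eq_mul]; ring
        _ ≤ _ := by
          apply Finset.sum_le_sum
          intro i hi
          have h3 := hS i hi
          rw [Nat.add_mul] at h3
          have h4 := Nat.mul_le_mul_left b h3.1
          split_ifs <;> omega

/-- The main lemma on Enforcer: disjoint boxes `i ∈ I`, Avoider loses if he has `k` elements in
one of them. -/
theorem enforcer_main {P : Finset α → Prop} (hP : Monotone P) {b r : ℕ} (hr : 1 ≤ r)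
    {box : α → ι} {I : Finset ι} {k : ℕ} (hk : 1 ≤ k)
    (hbox : ∀ A, ∀ i ∈ I, k ≤ lev box A i → P A) {W s d : ℕ}
    (hs : k ≤ s) (hW : 1 ≤ W) (M : ℕ → ℕ) (hM0 : M 0 ≤ I.card)
    (hM : ∀ j, j + 1 < k → (M (j + 1) * k + 1) * b + M (j + 1) * W ≤ M j * d)
    (hfin : r ≤ M (k - 1) * (s - (k - 1))) (E0 : Finset α) (hE0 : E0.Nonempty)
    (hmod : E0.card ≡ r [MOD (b + 1)])
    (hI : ∀ i ∈ I, s + (k - 1) * d ≤ lev box E0 i ∧ lev box E0 i ≤ W) :
    EnforcerWins P b ∅ E0 := by
  apply enforcerWins_of_ET hE0
  intro e he
  have hw : ∀ i, lev box (insert e ∅) i + lev box (E0.erase e) i = lev box E0 i := by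
    intro i
    have h1 := lev_erase (box := box) he i
    have h2 := lev_insert (box := box) (Finset.notMem_empty e) i
    have h3 : lev box (∅ : Finset α) i = 0 := by simp [lev]
    omega
  refine claim hP hr hbox hs hW M hM hfin (k - 1) 0 (by omega) _ _ ?_ ?_ I subset_rfl hM0 ?_
  · rw [Finset.disjoint_left]
    intro x hx hx'
    have : x = e := by simpa using hx
    exact (Finset.mem_erase.1 hx').1 this
  · rw [Finset.card_erase_of_mem he]
    have : 1 ≤ E0.card := Finset.card_pos.2 hE0
    rwa [Nat.sub_add_cancel this]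
  · intro i hi
    rw [hw]
    exact ⟨Nat.zero_le _, (hI i hi).1, (hI i hi).2⟩

end General

/-! ### The star game -/

section Star

variable {n : ℕ}

theorem hasStar_mono (k : ℕ) : Monotone (HasStar k : Finset (Sym2 (Fin n)) → Prop) := by
  intro A B hAB ⟨v, hv⟩
  exact ⟨v, hv.trans (Finset.card_le_card (Finset.filter_subset_filter _ hAB))⟩

theorem card_edges : (edges n).card = n.choose 2 := by
  unfold edges
  rw [SimpleGraph.card_edgeFinset_top_eq_card_choose_two, Fintype.card_fin]

theorem mem_edges {u v : Fin n} : s(u, v) ∈ edges n ↔ u ≠ v := by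
  simp [edges]

/-- The box of an edge between the first half and the second half of the vertices. -/
noncomputable def sbox (e : Sym2 (Fin n)) : Option (Fin n) := by
  classical
  exact if h : ∃ u : Fin n, (u : ℕ) < n / 2 ∧ ∃ v : Fin n, n / 2 ≤ (v : ℕ) ∧ e = s(u, v) then
    some h.choose else none

theorem sbox_eq {u v : Fin n} (hu : (u : ℕ) < n / 2) (hv : n / 2 ≤ (v : ℕ)) :
    sbox s(u, v) = some u := by
  have h : ∃ u' : Fin n, (u' : ℕ) < n / 2 ∧ ∃ v' : Fin n, n / 2 ≤ (v' : ℕ) ∧
      s(u, v) = s(u', v') := ⟨u, hu, v, hv, rfl⟩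
  unfold sbox
  rw [dif_pos h]
  congr 1
  obtain ⟨h1, v', h2, h3⟩ := h.choose_spec
  rw [Sym2.eq_iff] at h3
  rcases h3 with h3 | h3
  · exact h3.1.symm
  · exfalso
    rw [h3.1] at hu
    omega

theorem sbox_some {e : Sym2 (Fin n)} {u : Fin n} (h : sbox e = some u) :
    (u : ℕ) < n / 2 ∧ ∃ v : Fin n, n / 2 ≤ (v : ℕ) ∧ e = s(u, v) := by
  unfold sbox at h
  split_ifs at h with h1
  · rw [Option.some.injEq] at h
    rw [← h]
    exact h1.choose_spec

theorem lev_edges {u : Fin n} (hu : (u : ℕ) < n / 2) :
    lev sbox (edges n) (some u) = n - n / 2 := by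
  have h1 : (edges n).filter (fun e => sbox e = some u) =
      (Finset.univ.filter (fun v : Fin n => n / 2 ≤ (v : ℕ))).image (fun v => s(u, v)) := by
    ext e
    simp only [Finset.mem_filter, Finset.mem_image, Finset.mem_univ, true_and]
    constructor
    · rintro ⟨_, h2⟩
      obtain ⟨_, v, hv, rfl⟩ := sbox_some h2
      exact ⟨v, hv, rfl⟩
    · rintro ⟨v, hv, rfl⟩
      refine ⟨mem_edges.2 ?_, sbox_eq hu hv⟩
      rintro rfl
      omega
  unfold lev
  rw [h1, Finset.card_image_of_injective]
  · have h2 : (Finset.univ.filter (fun v : Fin n => n / 2 ≤ (v : ℕ))).card +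
        (Finset.univ.filter (fun v : Fin n => ¬ n / 2 ≤ (v : ℕ))).card = n := by
      rw [Finset.card_filter_add_card_filter_not, Finset.card_univ, Fintype.card_fin]
    have h3 : (Finset.univ.filter (fun v : Fin n => ¬ n / 2 ≤ (v : ℕ))).card = n / 2 := by
      simp only [not_le]
      have := Fin.card_filter_val_lt (n := n) (m := n / 2)
      rw [this]
      omega
    omega
  · intro v v' h
    have h1 : v = v' ∨ u = v' ∧ v = u := by simpa using h
    rcases h1 with h1 | ⟨h1, h2⟩
    · exact h1
    · exact h2.trans h1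

theorem enforcer_star {k b r : ℕ} (hk : 1 ≤ k) (hr : 1 ≤ r) {s d : ℕ}
    (hs : k ≤ s) (hn : 2 ≤ n) (M : ℕ → ℕ) (hM0 : M 0 ≤ n / 2)
    (hM : ∀ j, j + 1 < k → (M (j + 1) * k + 1) * b + M (j + 1) * n ≤ M j * d)
    (hfin : r ≤ M (k - 1) * (s - (k - 1)))
    (hmod : n.choose 2 ≡ r [MOD (b + 1)]) (hsd : s + (k - 1) * d ≤ n / 2) :
    EnforcerWins (HasStar k) b ∅ (edges n) := by
  set I : Finset (Option (Fin n)) :=
    (Finset.univ.filter (fun v : Fin n => (v : ℕ) < n / 2)).image some with hI
  have hIc : I.card = n / 2 := by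
    rw [hI, Finset.card_image_of_injective _ (Option.some_injective _)]
    rw [Fin.card_filter_val_lt]
    omega
  refine enforcer_main (box := sbox) (I := I) (hasStar_mono k) hr hk ?_ hs (W := n) (d := d)
    (by omega) M (hIc ▸ hM0) hM hfin (edges n) ?_ ?_ ?_
  · intro A i hi hki
    rw [hI, Finset.mem_image] at hi
    obtain ⟨u, hu, rfl⟩ := hi
    refine ⟨u, hki.trans (Finset.card_le_card ?_)⟩
    intro e he
    rw [Finset.mem_filter] at he ⊢
    obtain ⟨_, v, _, rfl⟩ := sbox_some he.2
    exact ⟨he.1, Sym2.mem_mk_left u v⟩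
  · rw [← Finset.card_pos, card_edges]
    exact Nat.choose_pos hn
  · rw [card_edges]; exact hmod
  · intro i hi
    rw [hI, Finset.mem_image] at hi
    obtain ⟨u, hu, rfl⟩ := hi
    rw [Finset.mem_filter] at hu
    rw [lev_edges hu.2]
    omega

/-- The number of vertices of degree at least `j`. -/
def cnt (A : Finset (Sym2 (Fin n))) (j : ℕ) : ℕ :=
  (Finset.univ.filter (fun v : Fin n => j ≤ deg A v)).card

theorem deg_insert_le (A : Finset (Sym2 (Fin n))) (e : Sym2 (Fin n)) (v : Fin n) :
    deg (insert e A) v ≤ deg A v + if v ∈ e then 1 else 0 := by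
  unfold deg
  rw [Finset.filter_insert]
  split_ifs with h
  · exact Finset.card_insert_le _ _
  · rfl

theorem card_mem_le (e : Sym2 (Fin n)) : (Finset.univ.filter (fun v : Fin n => v ∈ e)).card ≤ 2 := by
  induction e using Sym2.ind with
  | _ u v =>
    have : Finset.univ.filter (fun w : Fin n => w ∈ s(u, v)) ⊆ {u, v} := by
      intro w hw
      simpa using hw
    exact (Finset.card_le_card this).trans Finset.card_le_two

theorem card_le_of_touch {F : Finset (Sym2 (Fin n))} {A : Finset (Sym2 (Fin n))} {j : ℕ}
    (h : ∀ e ∈ F, ∃ v ∈ e, j ≤ deg A v) : F.card ≤ n * cnt A j := by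
  have h1 : F ⊆ (Finset.univ.filter (fun v : Fin n => j ≤ deg A v)).biUnion
      (fun v => (Finset.univ : Finset (Fin n)).image (fun w => s(v, w))) := by
    intro e he
    obtain ⟨v, hv, hvj⟩ := h e he
    rw [Finset.mem_biUnion]
    refine ⟨v, by simp [hvj], ?_⟩
    rw [Finset.mem_image]
    exact ⟨Sym2.Mem.other hv, Finset.mem_univ _, Sym2.other_spec hv⟩
  calc F.card ≤ _ := Finset.card_le_card h1
    _ ≤ ∑ v ∈ (Finset.univ.filter (fun v : Fin n => j ≤ deg A v)),
        ((Finset.univ : Finset (Fin n)).image (fun w => s(v, w))).card := Finset.card_biUnion_le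
    _ ≤ ∑ v ∈ (Finset.univ.filter (fun v : Fin n => j ≤ deg A v)), n := by
        apply Finset.sum_le_sum
        intro v _
        exact Finset.card_image_le.trans (by simp)
    _ = n * cnt A j := by rw [Finset.sum_const, smul_eq_mul, mul_comm]; rfl

theorem avoider_pos {k b : ℕ} (hk : 2 ≤ k) (X : ℕ → ℕ) (N : ℕ)
    (hX1 : 2 * ((N + b) / (b + 1)) ≤ X 1)
    (hX : ∀ j, 1 ≤ j → j + 1 < k → 2 * ((n * X j + b) / (b + 1)) ≤ X (j + 1))
    (hC : ∀ f a, 0 < f → f ≡ N [MOD (b + 1)] →
      (a = 0 ∨ a + 2 * ((f + b) / (b + 1)) ≤ X (k - 1)) → n * a < f) :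
    ∀ (m : ℕ) (A F : Finset (Sym2 (Fin n))), F.card = m → F.card ≤ N →
      (F.card = 0 ∨ F.card ≡ N [MOD (b + 1)]) →
      (∀ j, 1 ≤ j → j < k → (cnt A j = 0 ∨ cnt A j + 2 * ((F.card + b) / (b + 1)) ≤ X j)) →
      cnt A k = 0 → AvoiderWins (HasStar k) b A F := by
  intro m
  induction m using Nat.strong_induction_on with
  | _ m ih =>
  intro A F hF hFN hmod hinv hk0
  rw [AvoiderWins]
  split_ifs with hF0
  · rintro ⟨v, hv⟩
    unfold cnt at hk0
    rw [Finset.card_eq_zero, Finset.filter_eq_empty_iff] at hk0
    exact hk0 (Finset.mem_univ v) hv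
  have hFne : F.Nonempty := Finset.nonempty_iff_ne_empty.2 hF0
  have hFpos : 0 < F.card := Finset.card_pos.2 hFne
  have hmodF : F.card ≡ N [MOD (b + 1)] := by
    rcases hmod with h | h
    · omega
    · exact h
  set μ : Sym2 (Fin n) → ℕ := fun e =>
    (Finset.univ.filter (fun v : Fin n => v ∈ e)).sup (deg A) with hμ
  obtain ⟨e, he, hmin⟩ := Finset.exists_min_image F μ hFne
  have hdeg : ∀ v, v ∈ e → deg A v ≤ μ e := by
    intro v hv
    exact Finset.le_sup (f := deg A) (by simp [hv])
  have htouch : ∀ j, 1 ≤ j → j ≤ μ e → ∀ e' ∈ F, ∃ v ∈ e', j ≤ deg A v := by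
    intro j hj hje e' he'
    have h1 : j ≤ μ e' := hje.trans (hmin e' he')
    rw [hμ] at h1
    have h2 := (Finset.le_sup_iff (show (⊥ : ℕ) < j from hj)).1 h1
    obtain ⟨v, hv, hvj⟩ := h2
    exact ⟨v, (Finset.mem_filter.1 hv).2, hvj⟩
  -- the minimum is at most `k - 2`
  have hμk : μ e + 1 < k := by
    by_contra hcon
    have h1 := card_le_of_touch (htouch (k - 1) (by omega) (by omega))
    have h2 := hC F.card (cnt A (k - 1)) hFpos hmodF (hinv (k - 1) (by omega) (by omega))
    omega
  have hcnt2 : ∀ j, cnt (insert e A) j ≤ cnt A j + 2 := by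
    intro j
    have h1 : Finset.univ.filter (fun v : Fin n => j ≤ deg (insert e A) v) ⊆
        Finset.univ.filter (fun v : Fin n => j ≤ deg A v) ∪
        Finset.univ.filter (fun v : Fin n => v ∈ e) := by
      intro v hv
      simp only [Finset.mem_filter, Finset.mem_univ, true_and, Finset.mem_union] at hv ⊢
      have h2 := deg_insert_le A e v
      split_ifs at h2 with h3
      · exact Or.inr h3
      · exact Or.inl (by omega)
    calc cnt (insert e A) j ≤ _ := Finset.card_le_card h1
      _ ≤ _ := Finset.card_union_le _ _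
      _ ≤ cnt A j + 2 := Nat.add_le_add_left (card_mem_le e) _
  have hcnt0 : ∀ j, μ e + 1 < j → cnt (insert e A) j ≤ cnt A j := by
    intro j hj
    apply Finset.card_le_card
    intro v hv
    simp only [Finset.mem_filter, Finset.mem_univ, true_and] at hv ⊢
    have h2 := deg_insert_le A e v
    split_ifs at h2 with h3
    · have := hdeg v h3
      omega
    · omega
  have hpos : ∀ j, 1 ≤ j → j ≤ μ e → cnt A j ≠ 0 := by
    intro j hj hje h0
    obtain ⟨v, _, hv2⟩ := htouch j hj hje e he
    unfold cnt at h0
    rw [Finset.card_eq_zero, Finset.filter_eq_empty_iff] at h0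
    exact h0 (Finset.mem_univ v) hv2
  refine ⟨e, he, fun E hE hEc => ?_⟩
  have hc1 : (F.erase e).card = F.card - 1 := Finset.card_erase_of_mem he
  have hc2 : (F.erase e \ E).card = F.card - 1 - min b (F.card - 1) := by
    rw [Finset.card_sdiff_of_subset hE, hEc, hc1]
  have hm : ((F.erase e \ E).card + b) / (b + 1) + 1 = (F.card + b) / (b + 1) := by
    rw [hc2]
    by_cases hb : b ≤ F.card - 1
    · rw [min_eq_left hb]
      have h1 : F.card + b = (F.card - 1 - b + b) + (b + 1) := by omega
      rw [h1, Nat.add_div_right _ (by omega)]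
    · rw [min_eq_right (by omega), Nat.sub_self, Nat.zero_add, Nat.div_eq_of_lt (by omega)]
      rw [eq_comm, Nat.div_eq_iff (by omega)]
      constructor <;> omega
  refine ih _ (by omega) (insert e A) (F.erase e \ E) rfl (by omega) ?_ ?_ ?_
  · by_cases hb : b ≤ F.card - 1
    · right
      rw [hc2, min_eq_left hb]
      have h1 : F.card = (F.card - 1 - b) + (b + 1) := by omega
      have h2 : F.card - 1 - b + (b + 1) ≡ F.card - 1 - b [MOD (b + 1)] := Nat.add_modEq_right
      exact h2.symm.trans (h1 ▸ hmodF)
    · left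
      rw [hc2, min_eq_right (by omega), Nat.sub_self]
  · intro j hj hjk
    rcases lt_trichotomy j (μ e + 1) with h | h | h
    · have h1 := hpos j hj (by omega)
      have h2 := hinv j hj hjk
      have h3 := hcnt2 j
      right
      omega
    · by_cases h0 : cnt A j = 0
      · right
        have h3 := hcnt2 j
        have h4 : 2 * ((F.card + b) / (b + 1)) ≤ X j := by
          rcases Nat.eq_zero_or_pos (μ e) with hz | hz
          · have hj1 : j = 1 := by omega
            rw [hj1]
            refine le_trans ?_ hX1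
            have := Nat.div_le_div_right (c := b + 1) (Nat.add_le_add_right hFN b)
            omega
          · have h5 := card_le_of_touch (htouch (μ e) hz le_rfl)
            have h6 : cnt A (μ e) ≤ X (μ e) := by
              rcases hinv (μ e) hz (by omega) with h7 | h7 <;> omega
            have h8 : F.card ≤ n * X (μ e) := h5.trans (Nat.mul_le_mul_left n h6)
            have h9 := hX (μ e) hz (by omega)
            rw [h]
            refine le_trans ?_ h9
            have := Nat.div_le_div_right (c := b + 1) (Nat.add_le_add_right h8 b)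
            omega
        omega
      · have h2 := hinv j hj hjk
        have h3 := hcnt2 j
        right
        omega
    · have h1 := hcnt0 j h
      have h2 := hinv j hj hjk
      omega
  · have := hcnt0 k hμk
    omega

theorem avoider_star {k b : ℕ} (hk : 2 ≤ k) (X : ℕ → ℕ)
    (hX1 : 2 * ((n.choose 2 + b) / (b + 1)) ≤ X 1)
    (hX : ∀ j, 1 ≤ j → j + 1 < k → 2 * ((n * X j + b) / (b + 1)) ≤ X (j + 1))
    (hC : ∀ f a, 0 < f → f ≡ n.choose 2 [MOD (b + 1)] →
      (a = 0 ∨ a + 2 * ((f + b) / (b + 1)) ≤ X (k - 1)) → n * a < f) :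
    AvoiderWins (HasStar k) b ∅ (edges n) := by
  have h0 : ∀ j, 1 ≤ j → cnt (∅ : Finset (Sym2 (Fin n))) j = 0 := by
    intro j hj
    unfold cnt deg
    simp only [Finset.filter_empty, Finset.card_empty]
    rw [Finset.card_eq_zero, Finset.filter_eq_empty_iff]
    intro v _
    omega
  refine avoider_pos hk X (n.choose 2) hX1 hX hC _ ∅ (edges n) rfl card_edges.le ?_ ?_ ?_
  · right; rw [card_edges]
  · intro j hj _; left; exact h0 j hj
  · exact h0 k (by omega)

end Star

end Pool.Agent.H53.AE
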